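import Pool.Agent.Lib.MP_b1de93_lc.Model

set_option autoImplicit false

namespace Pool.Agent.Lib.MP_b1de93_lc

open FirstOrder
open scoped Classical in
/-- Exchange of `γ` and `e γ` for `γ ∈ C`. -/
noncomputable def swapFun (C : Set Lab) (e : Lab → Lab) (γ : Lab) : Lab :=
  if γ ∈ C then e γ else if h : ∃ c ∈ C, e c = γ then h.choose else γ

theorem swapFun_invol {C : Set Lab} {e : Lab → Lab} (he : Set.InjOn e C)
    (hd : ∀ c ∈ C, e c ∉ C) : Function.Involutive (swapFun C e) := by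
  intro γ
  by_cases h1 : γ ∈ C
  · have h2 : swapFun C e γ = e γ := by simp [swapFun, h1]
    rw [h2]
    have h3 : ∃ c ∈ C, e c = e γ := ⟨γ, h1, rfl⟩
    have h4 : swapFun C e (e γ) = h3.choose := by
      unfold swapFun
      rw [if_neg (hd γ h1), dif_pos h3]
    rw [h4]
    exact he h3.choose_spec.1 h1 h3.choose_spec.2
  · by_cases h3 : ∃ c ∈ C, e c = γ
    · have h4 : swapFun C e γ = h3.choose := by
        unfold swapFun
        rw [if_neg h1, dif_pos h3]
      rw [h4]
      have h5 : swapFun C e h3.choose = e h3.choose := by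
        unfold swapFun
        rw [if_pos h3.choose_spec.1]
      rw [h5, h3.choose_spec.2]
    · have h4 : swapFun C e γ = γ := by
        unfold swapFun
        rw [if_neg h1, dif_neg h3]
      rw [h4, h4]

theorem swapFun_mem {C : Set Lab} {e : Lab → Lab} {γ : Lab} (h : γ ∈ C) :
    swapFun C e γ = e γ := by
  unfold swapFun
  rw [if_pos h]

theorem swapFun_not_mem {C : Set Lab} {e : Lab → Lab} {γ : Lab} (h : γ ∉ C)
    (h' : ∀ c ∈ C, e c ≠ γ) : swapFun C e γ = γ := by
  unfold swapFun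
  rw [if_neg h, dif_neg]
  rintro ⟨c, hc, hc'⟩
  exact h' c hc hc'

/-- A small family of disjoint copies of a small set of labels, outside that set. -/
theorem exists_copies {B : Set Lab} (hB : Small.{0} B) {I : Type 1} (hI : Small.{0} I) :
    ∃ j : I → Lab → Lab, (∀ x, ∀ γ ∈ B, j x γ ∉ B) ∧
      ∀ x x', ∀ γ ∈ B, ∀ γ' ∈ B, j x γ = j x' γ' → x = x' ∧ γ = γ' := by
  have h1 : Nonempty ((B × I) ↪ (Bᶜ : Set Lab)) := by
    rcases Function.Embedding.total (B × I) (Bᶜ : Set Lab) with h | h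
    · exact h
    · exfalso
      obtain ⟨f⟩ := h
      have h2 : Small.{0} (Bᶜ : Set Lab) := small_of_injective f.injective
      have h3 : Small.{0} (B ∪ Bᶜ : Set Lab) := small_union _ _
      rw [Set.union_compl_self, small_univ_iff] at h3
      exact not_small_ordinal.{0, 0} h3
  obtain ⟨f⟩ := h1
  classical
  refine ⟨fun x γ => if h : γ ∈ B then (f (⟨γ, h⟩, x)).1 else γ, ?_, ?_⟩
  · intro x γ hγ
    simp only [hγ, dif_pos]
    exact (f (⟨γ, hγ⟩, x)).2
  · intro x x' γ hγ γ' hγ' h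
    simp only [hγ, hγ', dif_pos] at h
    have h4 := f.injective (Subtype.ext h)
    simp only [Prod.mk.injEq, Subtype.mk.injEq] at h4
    exact ⟨h4.2, h4.1⟩

theorem small_ty_preimage {S : Set Ty} (hS : Small.{0} S) : Small.{0} {b : At | ty b ∈ S} := by
  refine small_of_injective (β := S × List ℕ) (f := fun b => (⟨ty b.1, b.2⟩, b.1.map Prod.snd)) ?_
  intro b c h
  apply Subtype.ext
  have h1 : ty b.1 = ty c.1 := congrArg (fun q : S × List ℕ => q.1.1) h
  have h2 : b.1.map Prod.snd = c.1.map Prod.snd := congrArg (fun q : S × List ℕ => q.2) h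
  have h3 : ∀ l l' : At, ty l = ty l' → l.map Prod.snd = l'.map Prod.snd → l = l' := by
    intro l
    induction l with
    | nil =>
      intro l' hl _
      cases l' with
      | nil => rfl
      | cons a t => simp [ty] at hl
    | cons a t ih =>
      intro l' hl hl'
      cases l' with
      | nil => simp [ty] at hl
      | cons a' t' =>
        simp only [ty, List.map_cons, List.cons.injEq] at hl hl'
        rw [ih t' hl.2 hl'.2, Prod.ext hl.1 hl'.1]
  exact h3 _ _ h1 h2

/-- Orbits under automorphisms fixing a larger tree of types are small. -/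
theorem small_orbit {F : Set At} {S S' : Set Ty} {y : M} (h : Supp F S y.1) (hS : S ⊆ S')
    (hS' : Small.{0} S') : Small.{0} {z : M | ∃ k ∈ Fix ∅ S', z = actM k y} := by
  classical
  have h1 := small_ty_preimage hS'
  have hF : Small.{0} F := by
    have := h.finite.to_subtype
    infer_instance
  let Ψ : (F → {b : At | ty b ∈ S'}) → M := fun q =>
    if h : ∃ k ∈ Fix ∅ S', ∀ a : F, (k : G).1.1 a.1 = (q a).1 then actM h.choose y else y
  have h2 : Small.{0} (Set.range Ψ) := small_range _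
  refine small_subset (s := Set.range Ψ) ?_
  rintro z ⟨k, hk, rfl⟩
  have hty : ∀ a : F, ty ((k : G).1.1 a.1) ∈ S' := by
    intro a
    rw [G.ty_apply, hk.2 _ (hS (h.sub a.1 a.2))]
    exact hS (h.sub a.1 a.2)
  refine ⟨fun a => ⟨(k : G).1.1 a.1, hty a⟩, ?_⟩
  have h3 : ∃ k' ∈ Fix ∅ S', ∀ a : F, (k' : G).1.1 a.1 = (k : G).1.1 a.1 := ⟨k, hk, fun _ => rfl⟩
  have h4 : Ψ (fun a => ⟨(k : G).1.1 a.1, hty a⟩) = actM h3.choose y := by
    simp only [Ψ]
    rw [dif_pos h3]
  rw [h4]
  obtain ⟨h5, h6⟩ := h3.choose_spec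
  set k' := h3.choose with hk'
  have h7 : k⁻¹ * k' ∈ Fix F S := by
    refine ⟨fun a ha => ?_, fun s hs => ?_⟩
    · change k.1.1.symm (k'.1.1 a) = a
      rw [h6 ⟨a, ha⟩]
      simp
    · change k.1.2.symm (k'.1.2 s) = s
      rw [h5.2 s (hS hs)]
      rw [Equiv.symm_apply_eq]
      exact (hk.2 s (hS hs)).symm
  have h8 := h.fix _ h7
  rw [act_mul] at h8
  apply Subtype.ext
  change act k' y.1 = act k y.1
  conv_rhs => rw [← h8]
  rw [act_act_inv]

theorem modelsCollection : ModelsCollection M := by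
  classical
  intro m φ p w hw
  obtain ⟨F, S, hF, hS, hFS, h⟩ := exists_supp (Fin.cons w p : Fin (m + 1) → M)
  have h0 : Supp F S w.1 := h 0
  have hp : ∀ i, Supp F S (p i).1 := fun i => h i.succ
  have hIs : Small.{0} {x : M | Mem x w} := small_memM w
  choose y hy using fun x : {x : M | Mem x w} => hw x.1 x.2
  choose Fy Sy hsy using fun x : {x : M | Mem x w} => (y x).2.sym
  -- the trees of types
  let T : {x : M | Mem x w} → Set Ty := fun x => Sy x ∪ S
  have hT : ∀ x, Good (T x) := fun x => (hsy x).good.union hS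
  -- the labels
  let B : Set Lab := (⋃ s ∈ S, {γ | γ ∈ s}) ∪ ⋃ x, ⋃ s ∈ T x, {γ | γ ∈ s}
  have hBsm : Small.{0} B := by
    have e1 := hS.small
    have e2 := fun x => (hT x).small
    have e3 : ∀ s : Ty, Small.{0} {γ | γ ∈ s} := by
      intro s
      have := (List.finite_toSet s).to_subtype
      have e4 : {γ | γ ∈ s} = {γ | γ ∈ s} := rfl
      exact small_of_injective (β := {x // x ∈ s}) (f := fun γ => ⟨γ.1, γ.2⟩)
        (fun a b hab => Subtype.ext (congrArg (fun q : {x // x ∈ s} => q.1) hab))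
    infer_instance
  have hBS : ∀ s ∈ S, ∀ γ ∈ s, γ ∈ B := by
    intro s hs γ hγ
    left
    simp only [Set.mem_iUnion]
    exact ⟨s, hs, hγ⟩
  have hBT : ∀ x, ∀ s ∈ T x, ∀ γ ∈ s, γ ∈ B := by
    intro x s hs γ hγ
    right
    simp only [Set.mem_iUnion]
    exact ⟨x, s, hs, hγ⟩
  obtain ⟨j, hj1, hj2⟩ := exists_copies hBsm hIs
  -- the automorphisms moving the trees apart
  let C : Ty → Set Lab := fun s => {γ | γ ∈ B ∧ s ++ [γ] ∉ S}
  have hinj : ∀ x s, Set.InjOn (j x) (C s) := fun x s γ hγ γ' hγ' e =>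
    (hj2 x x γ hγ.1 γ' hγ'.1 e).2
  have hdis : ∀ x s, ∀ c ∈ C s, j x c ∉ C s := fun x s c hc hc' => hj1 x c hc.1 hc'.1
  let σ : {x : M | Mem x w} → Ty → Equiv.Perm Lab := fun x s =>
    if s ∈ S then (swapFun_invol (hinj x s) (hdis x s)).toPerm else 1
  have hσfix : ∀ x s γ, s ++ [γ] ∈ S → σ x s γ = γ := by
    intro x s γ hs
    have hs' : s ∈ S := hS.closed _ _ (List.prefix_append _ _) hs
    have hγ : γ ∈ B := hBS _ hs γ (by simp)
    simp only [σ, if_pos hs']
    refine swapFun_not_mem (fun hc => hc.2 hs) ?_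
    rintro c hc rfl
    exact hj1 x c hc.1 hγ
  have hσexit : ∀ x s γ, s ∈ S → γ ∈ B → s ++ [γ] ∉ S → σ x s γ = j x γ := by
    intro x s γ hs hγ hsγ
    simp only [σ, if_pos hs]
    exact swapFun_mem (show γ ∈ C s from ⟨hγ, hsγ⟩)
  have hg := fun x => relabel_fix hS.closed (hσfix x)
  let g : {x : M | Mem x w} → G := fun x => relabel (σ x)
  -- the exit labels
  have hexit : ∀ x, ∀ s ∈ T x, s ∉ S → ∃ s0 γ u, (g x).1.2 s = s0 ++ [j x γ] ++ u ∧ s0 ∈ S ∧
      γ ∈ B ∧ s0 ++ [j x γ] ∉ S := by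
    intro x s hs hs'
    obtain ⟨s0, γ, u, rfl, h1, h2⟩ := exists_exit hS.nil_mem s hs'
    have hγ : γ ∈ B := hBT x _ hs γ (by simp)
    refine ⟨s0, γ, treeMap (fun c => (σ x) (s0 ++ (γ :: c))) u, ?_, h1, hγ, ?_⟩
    · change treeMap (σ x) (s0 ++ [γ] ++ u) = _
      rw [List.append_assoc, treeMap_append]
      have h3 : treeMap (σ x) s0 = s0 := (hg x).1 s0 h1
      rw [h3]
      simp only [List.cons_append, List.nil_append, treeMap, List.append_nil, List.append_assoc]
      rw [hσexit x s0 γ h1 hγ h2]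
    · intro h4
      exact hj1 x γ hγ (hBS _ h4 _ (by simp))
  -- the amalgamated tree
  let S' : Set Ty := S ∪ ⋃ x, (g x).1.2 '' (T x)
  have hS'good : Good S' := by
    refine ⟨?_, Or.inl hS.nil_mem, ?_, ?_⟩
    · have e1 := hS.small
      have e2 := fun x => ((hT x).image (g x)).small
      infer_instance
    · rintro s t hst (ht | ht)
      · exact Or.inl (hS.closed _ _ hst ht)
      · right
        simp only [Set.mem_iUnion] at ht ⊢
        obtain ⟨x, hx⟩ := ht
        exact ⟨x, ((hT x).image (g x)).closed _ _ hst hx⟩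
    · rintro ⟨f, hf, hc⟩
      by_cases hall : ∀ n, f n ∈ S
      · exact hS.wf ⟨f, hall, hc⟩
      · push Not at hall
        obtain ⟨m0, hm0⟩ := hall
        have hn : ∀ n, m0 ≤ n → f n ∉ S := fun n hn hfn =>
          hm0 (hS.closed _ _ (chain_mono hc hn) hfn)
        have hdata : ∀ n, m0 ≤ n → ∃ x, f n ∈ (g x).1.2 '' (T x) ∧
            ∃ s0 γ u, f n = s0 ++ [j x γ] ++ u ∧ s0 ∈ S ∧ γ ∈ B ∧ s0 ++ [j x γ] ∉ S := by
          intro n hmn
          rcases hf n with h1 | h1
          · exact absurd h1 (hn n hmn)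
          · simp only [Set.mem_iUnion] at h1
            obtain ⟨x, hx⟩ := h1
            refine ⟨x, hx, ?_⟩
            obtain ⟨s, hs, hs'⟩ := hx
            have h2 : s ∉ S := by
              intro h3
              apply hn n hmn
              rw [← hs', (hg x).1 s h3]
              exact h3
            obtain ⟨s0, γ, u, e1, e2, e3, e4⟩ := hexit x s hs h2
            exact ⟨s0, γ, u, by rw [← hs', e1], e2, e3, e4⟩
        obtain ⟨x, hx, s0, γ, u, e1, e2, e3, e4⟩ := hdata m0 le_rfl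
        refine ((hT x).image (g x)).wf ⟨fun n => f (m0 + n), fun n => ?_, fun n => hc _⟩
        obtain ⟨x', hx', s0', γ', u', e1', e2', e3', e4'⟩ := hdata (m0 + n) (Nat.le_add_right _ _)
        have hpre : f m0 <+: f (m0 + n) := chain_mono hc (Nat.le_add_right _ _)
        rw [e1, e1'] at hpre
        have h5 := exit_unique hS.closed hpre e2 e2' e4 e4'
        have h6 := hj2 x x' γ e3 γ' e3' h5.2
        rw [h6.1]
        exact hx'
  -- the new witnesses
  let y' : {x : M | Mem x w} → M := fun x => actM (g x) (y x)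
  have hy's : ∀ x, Supp ((g x).1.1 '' Fy x) ((g x).1.2 '' Sy x) (y' x).1 := fun x =>
    (hsy x).act (g x)
  have hsubS' : ∀ x, (g x).1.2 '' Sy x ⊆ S' := by
    intro x s hs
    right
    simp only [Set.mem_iUnion]
    refine ⟨x, ?_⟩
    obtain ⟨t, ht, rfl⟩ := hs
    exact ⟨t, Or.inl ht, rfl⟩
  have hsmall : Small.{0} (⋃ x, {z : M | ∃ k ∈ Fix ∅ S', z = actM k (y' x)}) := by
    have e1 := fun x => small_orbit (hy's x) (hsubS' x) hS'good.small
    infer_instance
  obtain ⟨v, hv, hv'⟩ := exists_setM (⋃ x, {z : M | ∃ k ∈ Fix ∅ S', z = actM k (y' x)})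
    Set.finite_empty hS'good (by
      intro k hk z hz
      simp only [Set.mem_iUnion] at hz ⊢
      obtain ⟨x, k', hk', rfl⟩ := hz
      exact ⟨x, k * k', mul_mem hk hk', Subtype.ext (act_mul k k' _).symm⟩)
  refine ⟨v, hv, fun x hx => ?_⟩
  have hker : ∀ a, ty a ∈ S → (g ⟨x, hx⟩).1.1 a = a := (hg ⟨x, hx⟩).2
  have hfixx : actM (g ⟨x, hx⟩) x = x := by
    apply Subtype.ext
    refine U.map_eq_self_of_ker fun a ha => ?_
    exact hker a (h0.ker (U.InKer.mem ha hx))
  have hfixp : ∀ i, actM (g ⟨x, hx⟩) (p i) = p i := by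
    intro i
    apply Subtype.ext
    refine U.map_eq_self_of_ker fun a ha => ?_
    exact hker a ((hp i).ker ha)
  refine ⟨y' ⟨x, hx⟩, ?_, ?_⟩
  · rw [hv']
    simp only [Set.mem_iUnion]
    exact ⟨⟨x, hx⟩, 1, one_mem _, Subtype.ext (act_one _).symm⟩
  · have h7 := (realize_cons_act2 φ (g ⟨x, hx⟩) x (y ⟨x, hx⟩) p hfixp).2 (hy ⟨x, hx⟩)
    rw [hfixx] at h7
    exact h7

end Pool.Agent.Lib.MP_b1de93_lc
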