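import Mathlib

set_option autoImplicit false

namespace Pool.Agent.Lib.MP_b1de93_lc

open FirstOrder

universe u

/-- The relation symbols of set theory with urelements. -/
inductive RelSym : ℕ → Type
  | ur : RelSym 1
  | mem : RelSym 2

/-- The first-order language of set theory with urelements: a unary predicate `ur` (being an
urelement), a binary predicate `mem`, and equality. -/
def LU : FirstOrder.Language.{0, 0} := ⟨fun _ => Empty, RelSym⟩

section Structure

variable {M : Type u} [LU.Structure M]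

/-- `x` is an element of `y`. -/
def Mem (x y : M) : Prop := FirstOrder.Language.Structure.RelMap (L := LU) RelSym.mem ![x, y]

/-- `x` is an urelement. -/
def Ur (x : M) : Prop := FirstOrder.Language.Structure.RelMap (L := LU) RelSym.ur ![x]

/-- `x` is a set, i.e. not an urelement. -/
def IsSet (x : M) : Prop := ¬ Ur x

/-- All members of `x` are members of `y`. -/
def Sub (x y : M) : Prop := ∀ z : M, Mem z x → Mem z y

/-- Every member of the set `t` is a subset of it. -/
def Trans (t : M) : Prop := ∀ z : M, Mem z t → Sub z t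

end Structure

/-- Bounding all quantifiers of a formula by the new free variable `none`. -/
def relativize {α : Type} : ∀ {n : ℕ}, LU.BoundedFormula α n → LU.BoundedFormula (Option α) n
  | _, .falsum => .falsum
  | _, .equal t₁ t₂ => .equal (t₁.relabel (Sum.map some id)) (t₂.relabel (Sum.map some id))
  | _, .rel R ts => .rel R (fun i => (ts i).relabel (Sum.map some id))
  | _, .imp φ ψ => .imp (relativize φ) (relativize ψ)
  | n, .all φ => .all (.imp
      (FirstOrder.Language.Relations.boundedFormula₂ (L := LU) RelSym.mem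
        (FirstOrder.Language.Term.var (Sum.inr (Fin.last n))) (FirstOrder.Language.Term.var (Sum.inl none)))
      (relativize φ))

/-- `M` is a model of the theory `ZFU_R`. The schemes of Separation and Replacement range over all
first-order formulas `φ` of the language, with arbitrary finitely many parameters `p`. -/
structure ModelsZFUR (M : Type u) [LU.Structure M] : Prop where
  urelements : ∀ a x : M, Ur a → ¬ Mem x a
  extensionality : ∀ x y : M, IsSet x → IsSet y → (∀ z : M, Mem z x ↔ Mem z y) → x = y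
  foundation : ∀ x : M, (∃ y : M, Mem y x) → ∃ y : M, Mem y x ∧ ∀ z : M, Mem z x → ¬ Mem z y
  pairing : ∀ x y : M, ∃ z : M, IsSet z ∧ ∀ w : M, Mem w z ↔ w = x ∨ w = y
  union : ∀ x : M, ∃ y : M, IsSet y ∧ ∀ z : M, Mem z y ↔ ∃ w : M, Mem w x ∧ Mem z w
  infinity : ∃ x : M, IsSet x ∧ (∃ e : M, Mem e x ∧ IsSet e ∧ ∀ z : M, ¬ Mem z e) ∧
    ∀ y : M, Mem y x → ∃ s : M, Mem s x ∧ IsSet s ∧ ∀ z : M, Mem z s ↔ Mem z y ∨ z = y
  powerset : ∀ x : M, ∃ y : M, IsSet y ∧ ∀ z : M, Mem z y ↔ IsSet z ∧ Sub z x
  separation : ∀ (m : ℕ) (φ : LU.Formula (Fin (m + 1))) (p : Fin m → M) (x : M),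
    ∃ y : M, IsSet y ∧ ∀ z : M, Mem z y ↔ Mem z x ∧ φ.Realize (Fin.cons z p : Fin (m + 1) → M)
  replacement : ∀ (m : ℕ) (φ : LU.Formula (Fin (m + 2))) (p : Fin m → M) (w : M),
    (∀ x : M, Mem x w → ∃! y : M, φ.Realize (Fin.cons x (Fin.cons y p) : Fin (m + 2) → M)) →
    ∃ v : M, IsSet v ∧ ∀ y : M, Mem y v ↔
      ∃ x : M, Mem x w ∧ φ.Realize (Fin.cons x (Fin.cons y p) : Fin (m + 2) → M)

/-- `M` satisfies every instance of Collection. -/
def ModelsCollection (M : Type u) [LU.Structure M] : Prop :=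
  ∀ (m : ℕ) (φ : LU.Formula (Fin (m + 2))) (p : Fin m → M) (w : M),
    (∀ x : M, Mem x w → ∃ y : M, φ.Realize (Fin.cons x (Fin.cons y p) : Fin (m + 2) → M)) →
    ∃ v : M, IsSet v ∧ ∀ x : M, Mem x w →
      ∃ y : M, Mem y v ∧ φ.Realize (Fin.cons x (Fin.cons y p) : Fin (m + 2) → M)

/-- `M` satisfies the instance of the reflection scheme RP given by the formula `φ`. -/
def ModelsRP (M : Type u) [LU.Structure M] {m : ℕ} (φ : LU.Formula (Fin m)) : Prop :=
  ∀ s : M, IsSet s → ∃ t : M, IsSet t ∧ Trans t ∧ Sub s t ∧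
    ∀ x : Fin m → M, (∀ i, Mem (x i) t) →
      (φ.Realize x ↔ (relativize φ).Realize (Option.elim · t x) (default : Fin 0 → M))

end Pool.Agent.Lib.MP_b1de93_lc
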