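import Pool.Agent.Lib.MP_b1de93_lc.Support
import Pool.Agent.Lib.MP_b1de93_lc.Defs

set_option autoImplicit false

namespace Pool.Agent.Lib.MP_b1de93_lc

open FirstOrder

/-- The structure of the permutation model. -/
instance : LU.Structure M where
  funMap := fun f => nomatch f
  RelMap := fun {n} r => match n, r with
    | _, RelSym.ur => fun v => U.IsAtom (v 0).1
    | _, RelSym.mem => fun v => U.Mem (v 0).1 (v 1).1

theorem mem_iff {x y : M} : Mem x y ↔ U.Mem x.1 y.1 := Iff.rfl

theorem ur_iff {x : M} : Ur x ↔ U.IsAtom x.1 := Iff.rfl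

theorem isSet_iff {x : M} : IsSet x ↔ ¬ U.IsAtom x.1 := Iff.rfl

/-- The action on the model. -/
def actM (g : G) (x : M) : M := ⟨act g x.1, x.2.act g⟩

theorem actM_val (g : G) (x : M) : (actM g x).1 = act g x.1 := rfl

/-- The automorphism of the model given by an element of the group. -/
def autM (g : G) : M ≃[LU] M where
  toFun := actM g
  invFun := actM g⁻¹
  left_inv := fun x => Subtype.ext (act_inv_act g x.1)
  right_inv := fun x => Subtype.ext (act_act_inv g x.1)
  map_fun' := fun f => nomatch f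
  map_rel' := by
    intro n r v
    cases r with
    | ur => exact isAtom_act
    | mem => exact act_mem_act

theorem autM_apply (g : G) (x : M) : autM g x = actM g x := rfl

theorem realize_act {α : Type} (g : G) (φ : LU.Formula α) (v : α → M) :
    φ.Realize (fun i => actM g (v i)) ↔ φ.Realize v :=
  FirstOrder.Language.StrongHomClass.realize_formula (autM g) φ

theorem cons_act {m : ℕ} (g : G) (x : M) (p : Fin m → M) (hp : ∀ i, actM g (p i) = p i) :
    (Fin.cons (actM g x) p : Fin (m + 1) → M) =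
      fun i => actM g ((Fin.cons x p : Fin (m + 1) → M) i) := by
  funext i
  refine Fin.cases ?_ (fun j => ?_) i
  · rfl
  · simp [hp]

theorem cons_act2 {m : ℕ} (g : G) (x y : M) (p : Fin m → M) (hp : ∀ i, actM g (p i) = p i) :
    (Fin.cons (actM g x) (Fin.cons (actM g y) p) : Fin (m + 2) → M) =
      fun i => actM g ((Fin.cons x (Fin.cons y p) : Fin (m + 2) → M) i) := by
  funext i
  refine Fin.cases ?_ (fun j => ?_) i
  · rfl
  · refine Fin.cases ?_ (fun k => ?_) j
    · rfl
    · simp [hp]

theorem realize_cons_act {m : ℕ} (φ : LU.Formula (Fin (m + 1))) (g : G) (x : M) (p : Fin m → M)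
    (hp : ∀ i, actM g (p i) = p i) :
    φ.Realize (Fin.cons (actM g x) p : Fin (m + 1) → M) ↔
      φ.Realize (Fin.cons x p : Fin (m + 1) → M) := by
  rw [cons_act g x p hp]
  exact realize_act g φ _

theorem realize_cons_act2 {m : ℕ} (φ : LU.Formula (Fin (m + 2))) (g : G) (x y : M) (p : Fin m → M)
    (hp : ∀ i, actM g (p i) = p i) :
    φ.Realize (Fin.cons (actM g x) (Fin.cons (actM g y) p) : Fin (m + 2) → M) ↔
      φ.Realize (Fin.cons x (Fin.cons y p) : Fin (m + 2) → M) := by
  rw [cons_act2 g x y p hp]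
  exact realize_act g φ _

/-- Finitely many elements have a common support. -/
theorem exists_supp {m : ℕ} (p : Fin m → M) :
    ∃ (F : Set At) (S : Set Ty), F.Finite ∧ Good S ∧ (∀ a ∈ F, ty a ∈ S) ∧
      ∀ i, Supp F S (p i).1 := by
  induction m with
  | zero => exact ⟨∅, {[]}, Set.finite_empty, good_singleton, by simp, fun i => i.elim0⟩
  | succ m ih =>
    obtain ⟨F, S, hF, hS, hFS, h⟩ := ih (fun i => p i.succ)
    obtain ⟨F', S', h'⟩ := (p 0).2.sym
    have hsub : ∀ a ∈ F ∪ F', ty a ∈ S ∪ S' := by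
      rintro a (ha | ha)
      · exact Or.inl (hFS a ha)
      · exact Or.inr (h'.sub a ha)
    refine ⟨F ∪ F', S ∪ S', hF.union h'.finite, hS.union h'.good, hsub, fun i => ?_⟩
    refine Fin.cases ?_ (fun j => ?_) i
    · exact h'.mono Set.subset_union_right Set.subset_union_right (hF.union h'.finite)
        (hS.union h'.good) hsub
    · exact (h j).mono Set.subset_union_left Set.subset_union_left (hF.union h'.finite)
        (hS.union h'.good) hsub

theorem Supp.actM_eq {F : Set At} {S : Set Ty} {x : M} (h : Supp F S x.1) {g : G}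
    (hg : g ∈ Fix F S) : actM g x = x := Subtype.ext (h.fix g hg)

/-- Existence of sets in the model, in the form used below. -/
theorem exists_setM (s : Set M) [Small.{0} s] {F : Set At} {S : Set Ty}
    (hF : F.Finite) (hS : Good S) (h : ∀ g ∈ Fix F S, ∀ x ∈ s, actM g x ∈ s) :
    ∃ y : M, IsSet y ∧ ∀ z : M, Mem z y ↔ z ∈ s := by
  have hsm : Small.{0} ((fun x : M => x.1) '' s : Set (U At)) := small_image _ _
  obtain ⟨y, h1, h2⟩ := exists_set ((fun x : M => x.1) '' s)
    (by rintro _ ⟨x, _, rfl⟩; exact x.2) hF hS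
    (by rintro g hg _ ⟨x, hx, rfl⟩; exact ⟨_, h g hg x hx, rfl⟩)
  refine ⟨y, h1, fun z => ?_⟩
  rw [mem_iff, h2]
  constructor
  · rintro ⟨x, hx, hxz⟩
    rwa [← Subtype.ext hxz]
  · intro hz
    exact ⟨z, hz, rfl⟩

theorem small_memM (x : M) : Small.{0} {z : M | Mem z x} := by
  have := U.small_mem x.1
  refine small_of_injective (β := {z | U.Mem z x.1}) (f := fun z => ⟨z.1.1, z.2⟩) ?_
  intro z w h
  have h' : z.1.1 = w.1.1 := congrArg (fun q : {z | U.Mem z x.1} => q.1) h
  exact Subtype.ext (Subtype.ext h')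

theorem mem_actM {g : G} {z x : M} : Mem (actM g z) (actM g x) ↔ Mem z x := act_mem_act

theorem mem_actM_fix {g : G} {z x : M} (h : actM g x = x) : Mem (actM g z) x ↔ Mem z x := by
  conv_lhs => rw [← h]
  exact mem_actM

theorem isSet_actM {g : G} {x : M} : IsSet (actM g x) ↔ IsSet x := not_congr isAtom_act

theorem sub_actM {g : G} {z x : M} : Sub (actM g z) (actM g x) ↔ Sub z x := by
  constructor
  · intro h w hw
    have := h (actM g w) (mem_actM.2 hw)
    exact mem_actM.1 this
  · intro h w hw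
    obtain ⟨y, hy, h1⟩ := mem_act.1 hw
    let y' : M := ⟨y, z.2.mem hy⟩
    have h2 : Mem y' z := hy
    have h3 : Mem (actM g y') (actM g x) := mem_actM.2 (h _ h2)
    have h4 : actM g y' = w := Subtype.ext h1
    rwa [h4] at h3

theorem ext_M {x y : M} (hx : IsSet x) (hy : IsSet y) (h : ∀ z : M, Mem z x ↔ Mem z y) :
    x = y := by
  apply Subtype.ext
  apply U.ext_set hx hy
  intro z
  constructor
  · intro hz
    exact (h ⟨z, x.2.mem hz⟩).1 hz
  · intro hz
    exact (h ⟨z, y.2.mem hz⟩).2 hz

theorem foundation_M (x : M) (hx : ∃ y : M, Mem y x) :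
    ∃ y : M, Mem y x ∧ ∀ z : M, Mem z x → ¬ Mem z y := by
  by_contra hcon
  push Not at hcon
  have key : ∀ y : U At, ∀ y' : M, y'.1 = y → ¬ Mem y' x := by
    refine U.mem_induction ?_
    rintro y ih y' rfl hy
    obtain ⟨z, hz, hzy⟩ := hcon y' hy
    exact ih z.1 hzy z rfl hz
  obtain ⟨y, hy⟩ := hx
  exact key y.1 y rfl hy

/-- The von Neumann numerals. -/
noncomputable def vn : ℕ → U At
  | 0 => U.ofSet ∅
  | n + 1 => U.ofSet (insert (vn n) {z | U.Mem z (vn n)})

theorem vn_fix (g : G) (n : ℕ) : act g (vn n) = vn n := by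
  induction n with
  | zero =>
    apply U.ext_set
    · rw [isAtom_act]; exact U.not_isAtom_ofSet
    · exact U.not_isAtom_ofSet
    · intro z
      rw [mem_act]
      simp [vn, U.mem_ofSet]
  | succ n ih =>
    apply U.ext_set
    · rw [isAtom_act]; exact U.not_isAtom_ofSet
    · exact U.not_isAtom_ofSet
    · intro z
      rw [mem_act]
      simp only [vn, U.mem_ofSet, Set.mem_insert_iff, Set.mem_ofPred_eq]
      constructor
      · rintro ⟨y, rfl | hy, rfl⟩
        · exact Or.inl ih
        · right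
          rw [← ih]
          exact act_mem_act.2 hy
      · rintro (rfl | hz)
        · exact ⟨_, Or.inl rfl, ih⟩
        · refine ⟨act g⁻¹ z, Or.inr ?_, act_act_inv g z⟩
          rw [← act_mem_act (g := g), act_act_inv, ih]
          exact hz

theorem sym_of_forall {x : U At} (h : ∀ g, act g x = x) : Sym x :=
  Sym.of_fix Set.finite_empty good_singleton (fun g _ => h g)

theorem hs_vn (n : ℕ) : HS (vn n) := by
  induction n with
  | zero =>
    refine HS.set (sym_of_forall fun g => vn_fix g 0) ?_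
    intro y hy
    simp [vn, U.mem_ofSet] at hy
  | succ n ih =>
    refine HS.set (sym_of_forall fun g => vn_fix g (n + 1)) ?_
    intro y hy
    simp only [vn, U.mem_ofSet, Set.mem_insert_iff, Set.mem_ofPred_eq] at hy
    rcases hy with rfl | hy
    · exact ih
    · exact ih.mem hy

/-- The numerals as elements of the model. -/
noncomputable def vnM (n : ℕ) : M := ⟨vn n, hs_vn n⟩

theorem modelsZFUR : ModelsZFUR M where
  urelements := by
    rintro a x ⟨b, hb⟩ h
    rw [mem_iff] at h
    have hb' : a.1 = U.atom b := hb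
    rw [hb'] at h
    exact U.not_mem_atom h
  extensionality := fun x y hx hy h => ext_M hx hy h
  foundation := foundation_M
  pairing := by
    intro x y
    obtain ⟨F, S, hF, hS, -, h⟩ := exists_supp ![x, y]
    have h0 : Supp F S x.1 := h 0
    have h1 : Supp F S y.1 := h 1
    obtain ⟨z, hz, hz'⟩ := exists_setM ({x, y} : Set M) hF hS (by
      rintro g hg w (rfl | rfl)
      · exact Or.inl (h0.actM_eq hg)
      · exact Or.inr (h1.actM_eq hg))
    exact ⟨z, hz, fun w => by rw [hz']; rfl⟩
  union := by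
    intro x
    obtain ⟨F, S, h⟩ := x.2.sym
    have h1 := small_memM x
    have h2 : ∀ w : M, Small.{0} {z : M | Mem z w} := small_memM
    have hs : {z : M | ∃ w : M, Mem w x ∧ Mem z w} = ⋃ w ∈ {w : M | Mem w x}, {z : M | Mem z w} := by
      ext z; simp
    have hsm : Small.{0} {z : M | ∃ w : M, Mem w x ∧ Mem z w} := by
      rw [hs]
      infer_instance
    obtain ⟨y, hy, hy'⟩ := exists_setM {z : M | ∃ w : M, Mem w x ∧ Mem z w} h.finite h.good (by
      rintro g hg z ⟨w, hw, hz⟩
      exact ⟨actM g w, (mem_actM_fix (Supp.actM_eq h hg)).2 hw, mem_actM.2 hz⟩)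
    exact ⟨y, hy, fun z => hy' z⟩
  infinity := by
    have hsm : Small.{0} (Set.range vnM) := small_range _
    obtain ⟨x, hx, hx'⟩ := exists_setM (Set.range vnM)
      Set.finite_empty good_singleton (by
        rintro g _ _ ⟨n, rfl⟩
        exact ⟨n, Subtype.ext (vn_fix g n).symm⟩)
    refine ⟨x, hx, ⟨vnM 0, (hx' _).2 ⟨0, rfl⟩, U.not_isAtom_ofSet, ?_⟩, ?_⟩
    · intro z hz
      rw [mem_iff] at hz
      simp [vnM, vn, U.mem_ofSet] at hz
    · intro y hy
      obtain ⟨n, rfl⟩ := (hx' y).1 hy
      refine ⟨vnM (n + 1), (hx' _).2 ⟨n + 1, rfl⟩, U.not_isAtom_ofSet, ?_⟩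
      intro z
      rw [mem_iff, mem_iff]
      simp only [vnM, vn, U.mem_ofSet, Set.mem_insert_iff, Set.mem_ofPred_eq]
      rw [or_comm]
      exact or_congr Iff.rfl ⟨fun h => Subtype.ext h, fun h => congrArg (fun q : M => q.1) h⟩
  powerset := by
    intro x
    obtain ⟨F, S, h⟩ := x.2.sym
    have h1 := small_memM x
    have hsm : Small.{0} {z : M | IsSet z ∧ Sub z x} := by
      refine small_of_injective (β := 𝒫 {w : M | Mem w x})
        (f := fun z => ⟨{w : M | Mem w z.1}, z.2.2⟩) ?_
      intro z w hzw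
      have h3 : {u : M | Mem u z.1} = {u : M | Mem u w.1} := congrArg Subtype.val hzw
      apply Subtype.ext
      refine ext_M z.2.1 w.2.1 fun u => ?_
      exact Set.ext_iff.1 h3 u
    obtain ⟨y, hy, hy'⟩ := exists_setM {z : M | IsSet z ∧ Sub z x} h.finite h.good (by
      rintro g hg z ⟨hz1, hz2⟩
      refine ⟨isSet_actM.2 hz1, ?_⟩
      rw [← Supp.actM_eq (x := x) h hg]
      exact sub_actM.2 hz2)
    exact ⟨y, hy, fun z => hy' z⟩
  separation := by
    intro m φ p x
    obtain ⟨F, S, hF, hS, -, h⟩ := exists_supp (Fin.cons x p : Fin (m + 1) → M)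
    have h0 : Supp F S x.1 := h 0
    have hp : ∀ i, Supp F S (p i).1 := fun i => h i.succ
    have h1 := small_memM x
    have hsm : Small.{0} {z : M | Mem z x ∧ φ.Realize (Fin.cons z p : Fin (m + 1) → M)} :=
      small_subset (s := {z : M | Mem z x}) (fun z hz => hz.1)
    obtain ⟨y, hy, hy'⟩ := exists_setM
      {z : M | Mem z x ∧ φ.Realize (Fin.cons z p : Fin (m + 1) → M)} hF hS (by
      rintro g hg z ⟨hz1, hz2⟩
      refine ⟨(mem_actM_fix (h0.actM_eq hg)).2 hz1, ?_⟩
      exact (realize_cons_act φ g z p (fun i => (hp i).actM_eq hg)).2 hz2)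
    exact ⟨y, hy, fun z => hy' z⟩
  replacement := by
    intro m φ p w hw
    obtain ⟨F, S, hF, hS, -, h⟩ := exists_supp (Fin.cons w p : Fin (m + 1) → M)
    have h0 : Supp F S w.1 := h 0
    have hp : ∀ i, Supp F S (p i).1 := fun i => h i.succ
    have h1 := small_memM w
    have hsm : Small.{0} {y : M | ∃ x : M, Mem x w ∧
        φ.Realize (Fin.cons x (Fin.cons y p) : Fin (m + 2) → M)} := by
      choose f hf using fun x : {x : M | Mem x w} => (hw x.1 x.2).exists
      have h2 : Small.{0} (Set.range f) := small_range _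
      refine small_subset (s := Set.range f) ?_
      rintro y ⟨x, hx, hy⟩
      exact ⟨⟨x, hx⟩, (hw x hx).unique (hf ⟨x, hx⟩) hy⟩
    obtain ⟨y, hy, hy'⟩ := exists_setM {y : M | ∃ x : M, Mem x w ∧
        φ.Realize (Fin.cons x (Fin.cons y p) : Fin (m + 2) → M)} hF hS (by
      rintro g hg y ⟨x, hx, hy⟩
      refine ⟨actM g x, (mem_actM_fix (h0.actM_eq hg)).2 hx, ?_⟩
      exact (realize_cons_act2 φ g x y p (fun i => (hp i).actM_eq hg)).2 hy)
    exact ⟨y, hy, fun z => hy' z⟩

end Pool.Agent.Lib.MP_b1de93_lc
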