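import Pool.Agent.Lib.MP_b1de93_lc.Reflection

set_option autoImplicit false

namespace Pool.Agent.Lib.MP_b1de93_lc

open FirstOrder

/-- Urelements as elements of the model. -/
def atomM (a : At) : M := ⟨U.atom a, HS.atom a⟩

theorem atomM_inj {a b : At} : atomM a = atomM b ↔ a = b :=
  ⟨fun h => U.atom_inj.1 (congrArg (fun q : M => q.1) h), fun h => h ▸ rfl⟩

theorem actM_atomM (g : G) (a : At) : actM g (atomM a) = atomM (g.1.1 a) := rfl

theorem exists_atomM {x : M} (h : Ur x) : ∃ a, x = atomM a := by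
  obtain ⟨a, ha⟩ := h
  exact ⟨a, Subtype.ext ha⟩

theorem not_mem_atomM {x : M} {a : At} : ¬ Mem x (atomM a) := U.not_mem_atom

/-- Images of children. -/
theorem act_child (g : G) (c : At) (l : Lab) (h1 : g.1.2 (ty c) = ty c)
    (h2 : g.1.2 (ty c ++ [l]) = ty c ++ [l]) (i : ℕ) :
    ∃ i', g.1.1 (c ++ [(l, i)]) = g.1.1 c ++ [(l, i')] := by
  have h3 : g.1.1 c <+: g.1.1 (c ++ [(l, i)]) := (G.prefix_iff g _ _).2 (List.prefix_append _ _)
  obtain ⟨t, ht⟩ := h3
  have h4 : ty (g.1.1 c) = ty c := by rw [G.ty_apply, h1]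
  have h5 : ty (g.1.1 (c ++ [(l, i)])) = ty c ++ [l] := by
    rw [G.ty_apply, ty_append]
    exact h2
  rw [← ht, ty_append, h4] at h5
  have h6 : ty t = [l] := List.append_cancel_left h5
  cases t with
  | nil => simp [ty] at h6
  | cons e t' =>
    cases t' with
    | nil =>
      simp only [ty, List.map_cons, List.map_nil, List.cons.injEq, and_true] at h6
      refine ⟨e.2, ?_⟩
      rw [← ht, ← h6]
    | cons e' t'' => simp [ty] at h6

theorem ty_child (c : At) (l : Lab) (i : ℕ) : ty (c ++ [(l, i)]) = ty c ++ [l] := by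
  rw [ty_append]; rfl

/-- The block over the urelement `c`: `c` and its children with label `l`. -/
theorem exists_block (l : Lab) (c : At) : ∃ q : M, IsSet q ∧
    ∀ z : M, Mem z q ↔ z = atomM c ∨ ∃ i : ℕ, z = atomM (c ++ [(l, i)]) := by
  have hsm : Small.{0} ({atomM c} ∪ Set.range fun i : ℕ => atomM (c ++ [(l, i)]) : Set M) :=
    small_union _ _
  obtain ⟨q, hq, hq'⟩ := exists_setM
    ({atomM c} ∪ Set.range fun i : ℕ => atomM (c ++ [(l, i)]) : Set M)
    (F := {c}) (S := closure {c ++ [(l, 0)]}) (Set.finite_singleton c)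
    (good_closure (Set.finite_singleton _)) (by
      intro g hg
      have h1 : g.1.2 (ty c) = ty c := hg.2 _ (Or.inr ⟨_, rfl, by
        rw [ty_child]; exact List.prefix_append _ _⟩)
      have h2 : g.1.2 (ty c ++ [l]) = ty c ++ [l] := hg.2 _ (Or.inr ⟨_, rfl, by rw [ty_child]⟩)
      rintro z (rfl | ⟨i, rfl⟩)
      · left
        rw [actM_atomM, hg.1 c rfl]
        rfl
      · right
        obtain ⟨i', hi'⟩ := act_child g c l h1 h2 i
        refine ⟨i', ?_⟩
        simp only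
        rw [actM_atomM, hi', hg.1 c rfl])
  refine ⟨q, hq, fun z => ?_⟩
  rw [hq']
  constructor
  · rintro (h | ⟨i, hi⟩)
    · exact Or.inl h
    · exact Or.inr ⟨i, hi.symm⟩
  · rintro (h | ⟨i, hi⟩)
    · exact Or.inl h
    · exact Or.inr ⟨i, hi.symm⟩

/-- The block over `c`. -/
noncomputable def block (l : Lab) (c : At) : M := (exists_block l c).choose

theorem isSet_block (l : Lab) (c : At) : IsSet (block l c) := (exists_block l c).choose_spec.1

theorem mem_block {l : Lab} {c : At} {z : M} :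
    Mem z (block l c) ↔ z = atomM c ∨ ∃ i : ℕ, z = atomM (c ++ [(l, i)]) :=
  (exists_block l c).choose_spec.2 z

theorem actM_block {g : G} {l : Lab} {c : At} (h1 : g.1.2 (ty c) = ty c)
    (h2 : g.1.2 (ty c ++ [l]) = ty c ++ [l]) : actM g (block l c) = block l (g.1.1 c) := by
  have e1 : g⁻¹.1.2 (ty (g.1.1 c)) = ty (g.1.1 c) := by
    rw [G.ty_apply, h1]
    change g.1.2.symm (ty c) = ty c
    rw [Equiv.symm_apply_eq]; exact h1.symm
  have e2 : g⁻¹.1.2 (ty (g.1.1 c) ++ [l]) = ty (g.1.1 c) ++ [l] := by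
    rw [G.ty_apply, h1]
    change g.1.2.symm (ty c ++ [l]) = ty c ++ [l]
    rw [Equiv.symm_apply_eq]; exact h2.symm
  have e3 : g⁻¹.1.1 (g.1.1 c) = c := g.1.1.symm_apply_apply c
  apply ext_M
  · exact isSet_actM.2 (isSet_block l c)
  · exact isSet_block _ _
  · intro z
    rw [mem_block]
    have h3 : Mem z (actM g (block l c)) ↔ Mem (actM g⁻¹ z) (block l c) := by
      rw [← mem_actM (g := g) (z := actM g⁻¹ z)]
      have : actM g (actM g⁻¹ z) = z := Subtype.ext (act_act_inv g z.1)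
      rw [this]
    have h4 : ∀ b : At, actM g⁻¹ z = atomM b ↔ z = atomM (g.1.1 b) := by
      intro b
      constructor
      · intro h
        have := congrArg (actM g) h
        rw [actM_atomM] at this
        rw [← this]
        exact (Subtype.ext (act_act_inv g z.1)).symm
      · rintro rfl
        apply Subtype.ext
        exact act_inv_act g (U.atom b)
    rw [h3, mem_block]
    simp only [h4]
    refine or_congr Iff.rfl ?_
    constructor
    · rintro ⟨i, rfl⟩
      obtain ⟨i', hi'⟩ := act_child g c l h1 h2 i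
      exact ⟨i', by rw [hi']⟩
    · rintro ⟨i, rfl⟩
      obtain ⟨i', hi'⟩ := act_child g⁻¹ (g.1.1 c) l e1 e2 i
      rw [e3] at hi'
      refine ⟨i', ?_⟩
      rw [← hi']
      exact congrArg atomM (g.1.1.apply_symm_apply _).symm

/-- Adding one new label on top of a good tree. -/
theorem Good.addLabel {S : Set Ty} (hS : Good S) (l : Lab) :
    Good (S ∪ (fun s => s ++ [l]) '' S) where
  small := by
    have := hS.small
    infer_instance
  nil_mem := Or.inl hS.nil_mem
  closed := by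
    rintro s t hst (ht | ⟨t', ht', rfl⟩)
    · exact Or.inl (hS.closed _ _ hst ht)
    · rcases List.prefix_concat_iff.1 hst with h | h
      · exact Or.inr ⟨t', ht', h.symm⟩
      · exact Or.inl (hS.closed _ _ h ht')
  wf := by
    rintro ⟨f, hf, hc⟩
    by_cases hall : ∀ n, f n ∈ S
    · exact hS.wf ⟨f, hall, hc⟩
    · push Not at hall
      obtain ⟨m, hm⟩ := hall
      have h1 : f (m + 1) ∉ S := fun h => hm (hS.closed _ _ (hc m).1 h)
      obtain ⟨s, hs, hs'⟩ := (hf m).resolve_left hm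
      obtain ⟨s2, hs2, hs2'⟩ := (hf (m + 1)).resolve_left h1
      have h2 := (hc m).1
      have h3 := (hc m).2
      simp only at hs' hs2'
      rw [← hs2'] at h2 h3
      rcases List.prefix_concat_iff.1 h2 with h | h
      · exact h3 h
      · exact hm (hS.closed _ _ h hs2)

theorem exists_new_label {S : Set Ty} (hS : Small.{0} S) : ∃ l : Lab, ∀ s ∈ S, l ∉ s := by
  by_contra hcon
  push Not at hcon
  have e3 : ∀ s : Ty, Small.{0} {γ | γ ∈ s} := by
    intro s
    have := (List.finite_toSet s).to_subtype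
    exact small_of_injective (β := {x // x ∈ s}) (f := fun γ => ⟨γ.1, γ.2⟩)
      (fun a b hab => Subtype.ext (congrArg (fun q : {x // x ∈ s} => q.1) hab))
  have h1 : Small.{0} (⋃ s ∈ S, {γ | γ ∈ s} : Set Lab) := by infer_instance
  have h2 : (⋃ s ∈ S, {γ | γ ∈ s} : Set Lab) = Set.univ := by
    ext l
    simp only [Set.mem_iUnion, Set.mem_univ, iff_true]
    obtain ⟨s, hs, hl⟩ := hcon l
    exact ⟨s, hs, hl⟩
  rw [h2, small_univ_iff] at h1
  exact not_small_ordinal.{0, 0} h1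

theorem exists_theta {x : M} (hx : ∀ a : M, Mem a x → Ur a) (hne : ∃ a : M, Mem a x) :
    ∃ z : M, z ≠ x ∧ Theta x z := by
  obtain ⟨F, S, h⟩ := x.2.sym
  obtain ⟨l, hl⟩ := exists_new_label h.good.small
  have hgood := h.good.addLabel l
  have hxS : ∀ c : At, Mem (atomM c) x → ty c ∈ S := fun c hc =>
    h.ker (U.InKer.mem U.InKer.atom hc)
  have hsm1 := small_memM x
  have hch : ∀ g ∈ Fix F (S ∪ (fun s => s ++ [l]) '' S), ∀ c : At, Mem (atomM c) x →
      g.1.2 (ty c) = ty c ∧ g.1.2 (ty c ++ [l]) = ty c ++ [l] ∧ Mem (atomM (g.1.1 c)) x := by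
    intro g hg c hc
    refine ⟨hg.2 _ (Or.inl (hxS c hc)), hg.2 _ (Or.inr ⟨_, hxS c hc, rfl⟩), ?_⟩
    have h1 : actM g x = x := h.actM_eq (Fix_mono le_rfl Set.subset_union_left hg)
    have h2 := (mem_actM_fix (z := atomM c) h1).2 hc
    exact h2
  -- the set `z`
  have hsmA : Small.{0} {c : At | Mem (atomM c) x} := by
    refine small_of_injective (β := {a : M | Mem a x}) (f := fun c => ⟨atomM c.1, c.2⟩) ?_
    intro c c' hcc
    have : atomM c.1 = atomM c'.1 := congrArg (fun q : {a : M | Mem a x} => q.1) hcc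
    exact Subtype.ext (atomM_inj.1 this)
  have hsm2 : Small.{0} (⋃ c ∈ {c : At | Mem (atomM c) x},
      Set.range fun i : ℕ => atomM (c ++ [(l, i)]) : Set M) := by infer_instance
  obtain ⟨z, hz, hz'⟩ := exists_setM (⋃ c ∈ {c : At | Mem (atomM c) x},
      Set.range fun i : ℕ => atomM (c ++ [(l, i)]) : Set M) h.finite hgood (by
    intro g hg y hy
    simp only [Set.mem_iUnion, Set.mem_range] at hy ⊢
    obtain ⟨c, hc, i, rfl⟩ := hy
    obtain ⟨h1, h2, h3⟩ := hch g hg c hc
    obtain ⟨i', hi'⟩ := act_child g c l h1 h2 i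
    exact ⟨g.1.1 c, h3, i', by rw [actM_atomM, hi']⟩)
  have hz2 : ∀ y : M, Mem y z ↔ ∃ c : At, Mem (atomM c) x ∧ ∃ i : ℕ, y = atomM (c ++ [(l, i)]) := by
    intro y
    rw [hz']
    simp only [Set.mem_iUnion, Set.mem_range]
    constructor
    · rintro ⟨c, hc, i, rfl⟩
      exact ⟨c, hc, i, rfl⟩
    · rintro ⟨c, hc, i, rfl⟩
      exact ⟨c, hc, i, rfl⟩
  -- the set `P`
  have hsm3 : Small.{0} (block l '' {c : At | Mem (atomM c) x} : Set M) := small_image _ _
  obtain ⟨P, hP, hP'⟩ := exists_setM (block l '' {c : At | Mem (atomM c) x} : Set M)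
    h.finite hgood (by
    rintro g hg _ ⟨c, hc, rfl⟩
    obtain ⟨h1, h2, h3⟩ := hch g hg c hc
    exact ⟨g.1.1 c, h3, (actM_block h1 h2).symm⟩)
  have hnot : ∀ (c : At) (i : ℕ), ¬ Mem (atomM (c ++ [(l, i)])) x := by
    intro c i hci
    have := hxS _ hci
    rw [ty_child] at this
    exact hl _ this (by simp)
  refine ⟨z, ?_, hx, ?_, ?_, P, ?_, ?_⟩
  · rintro rfl
    obtain ⟨a, ha⟩ := hne
    obtain ⟨c, -, i, rfl⟩ := (hz2 a).1 ha
    exact hnot c i ha
  · intro a ha
    obtain ⟨c, -, i, rfl⟩ := (hz2 a).1 ha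
    exact ⟨_, rfl⟩
  · intro a ha
    obtain ⟨c, -, i, rfl⟩ := (hz2 a).1 ha
    exact hnot c i
  · intro b hb
    obtain ⟨c, rfl⟩ := exists_atomM (hx b hb)
    refine ⟨atomM (c ++ [(l, 0)]), (hz2 _).2 ⟨c, hb, 0, rfl⟩, block l c, (hP' _).2 ⟨c, hb, rfl⟩,
      mem_block.2 (Or.inr ⟨0, rfl⟩), mem_block.2 (Or.inl rfl)⟩
  · intro a ha b hb b' hb' p hp p' hp' h1 h2 h3 h4
    obtain ⟨c0, hc0, i, rfl⟩ := (hz2 a).1 ha
    obtain ⟨c, hc, rfl⟩ := (hP' _).1 hp
    obtain ⟨c', hc', rfl⟩ := (hP' _).1 hp'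
    have key : ∀ c : At, Mem (atomM c) x → Mem (atomM (c0 ++ [(l, i)])) (block l c) → c = c0 := by
      intro c hc h
      rcases mem_block.1 h with h | ⟨i', h⟩
      · rw [← h] at hc
        exact absurd hc (hnot _ _)
      · have := atomM_inj.1 h
        exact (List.append_inj_left' this rfl).symm
    have key2 : ∀ (c : At) (b : M), Mem b x → Mem b (block l c) → b = atomM c := by
      intro c b hb h
      rcases mem_block.1 h with h | ⟨i', rfl⟩
      · exact h
      · exact absurd hb (hnot _ _)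
    rw [key2 c b hb h2, key2 c' b' hb' h4, key c hc h1, key c' hc' h3]

/-- `s` is a type such that some collection of urelements in `t` has infinitely many
members of type `s`. -/
def Big (t : M) (s : Ty) : Prop :=
  ∃ x : M, Mem x t ∧ (∀ a : M, Mem a x → Ur a) ∧ {b : At | Mem (atomM b) x ∧ ty b = s}.Infinite

theorem big_step {t : M}
    (ht : ∀ x : M, Mem x t → (∃ z : M, z ≠ x ∧ Theta x z) → ∃ z : M, Mem z t ∧ z ≠ x ∧ Theta x z)
    {s : Ty} (hs : Big t s) : ∃ s', Big t s' ∧ s <+: s' ∧ s ≠ s' := by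
  obtain ⟨x, hxt, hx, hinf⟩ := hs
  have hne : ∃ a : M, Mem a x := by
    obtain ⟨b, hb⟩ := hinf.nonempty
    exact ⟨_, hb.1⟩
  obtain ⟨z, hzt, hzx, -, hz, hdis, P, hP1, hP2⟩ := ht x hxt (exists_theta hx hne)
  obtain ⟨F, S, hF, hS, hFS, h⟩ := exists_supp ![x, z, P]
  have h0 : Supp F S x.1 := h 0
  have h1 : Supp F S z.1 := h 1
  have h2 : Supp F S P.1 := h 2
  -- a generic member of `x`
  have hfin : {b : At | b = [] ∨ ∃ f ∈ F, b <+: f}.Finite := by
    have e1 : {b : At | b = [] ∨ ∃ f ∈ F, b <+: f} = {[]} ∪ ⋃ f ∈ F, {b | b ∈ f.inits} := by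
      ext b; simp
    rw [e1]
    exact (Set.finite_singleton _).union (hF.biUnion fun f _ => List.finite_toSet _)
  obtain ⟨b, ⟨hb1, hb2⟩, hb3⟩ := (hinf.sdiff hfin).nonempty
  have hbne : b ≠ [] := fun e => hb3 (Or.inl e)
  have hbF : ∀ f ∈ F, ¬ b <+: f := fun f hf e => hb3 (Or.inr ⟨f, hf, e⟩)
  obtain ⟨a, ha, p, hp, hap, hbp⟩ := hP1 _ hb1
  obtain ⟨a', rfl⟩ := exists_atomM (hz a ha)
  have hmemF : ∀ g : G, (∀ s, g.1.2 s = s) → (∀ f ∈ F, g.1.1 f = f) → g ∈ Fix F S :=
    fun g g1 g2 => ⟨g2, fun s _ => g1 s⟩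
  -- `b` is an initial part of `a'`
  have hpre : b <+: a' := by
    by_contra hcon
    have horb := infinite_orbit (F := insert a' F) (hF.insert a') hbne (by
      rintro f (rfl | hf)
      · exact hcon
      · exact hbF f hf)
    obtain ⟨b', ⟨g, g1, g2, g3⟩, hb'⟩ := (horb.sdiff (Set.finite_singleton b)).nonempty
    have hgF : g ∈ Fix F S := hmemF g g1 (fun f hf => g2 f (Or.inr hf))
    have e1 : Mem (actM g p) P := (mem_actM_fix (h2.actM_eq hgF)).2 hp
    have e2 : Mem (atomM a') (actM g p) := by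
      have := mem_actM (g := g) (z := atomM a') (x := p)
      rw [actM_atomM, g2 a' (Or.inl rfl)] at this
      exact this.2 hap
    have e3 : Mem (atomM b') (actM g p) := by
      have := mem_actM (g := g) (z := atomM b) (x := p)
      rw [actM_atomM, g3] at this
      exact this.2 hbp
    have e4 : Mem (atomM b') x := by
      have := mem_actM_fix (z := atomM b) (h0.actM_eq hgF)
      rw [actM_atomM, g3] at this
      exact this.2 hb1
    have e5 := hP2 _ ha _ hb1 _ e4 p hp (actM g p) e1 hap hbp e2 e3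
    exact hb' (atomM_inj.1 e5).symm
  have hne' : b ≠ a' := by
    rintro rfl
    exact hdis _ ha hb1
  refine ⟨ty a', ⟨z, hzt, hz, ?_⟩, hb2 ▸ ty_prefix hpre, ?_⟩
  · -- infinitely many members of `z` of type `ty a'`
    have ha'ne : a' ≠ [] := by
      rintro rfl
      exact hbne (List.prefix_nil.1 hpre)
    have horb := infinite_orbit hF ha'ne (fun f hf e => hbF f hf (hpre.trans e))
    refine horb.mono ?_
    rintro a'' ⟨g, g1, g2, g3⟩
    have hgF : g ∈ Fix F S := hmemF g g1 g2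
    refine ⟨?_, ?_⟩
    · have := mem_actM_fix (z := atomM a') (h1.actM_eq hgF)
      rw [actM_atomM, g3] at this
      exact this.2 ha
    · rw [← g3, G.ty_apply, g1]
  · rw [← hb2]
    intro e
    apply hne'
    apply hpre.eq_of_length
    rw [← ty_length, ← ty_length, e]

theorem not_modelsRP : ¬ ModelsRP M phiF := by
  intro hRP
  -- the starting set of urelements
  have hsm : Small.{0} (Set.range fun i : ℕ => atomM [((0 : Lab), i)] : Set M) := small_range _
  have htl : ∀ g ∈ Fix ∅ (closure {[((0 : Lab), 0)]}), ∀ i : ℕ, ∃ i' : ℕ,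
      g.1.1 [((0 : Lab), i)] = [((0 : Lab), i')] := by
    intro g hg i
    have h1 : g.1.2 (ty []) = ty [] := hg.2 _ (Or.inl rfl)
    have h2 : g.1.2 (ty [] ++ [(0 : Lab)]) = ty [] ++ [(0 : Lab)] :=
      hg.2 _ (Or.inr ⟨_, rfl, List.prefix_refl _⟩)
    obtain ⟨i', hi'⟩ := act_child g [] 0 h1 h2 i
    have h3 : g.1.1 [] = [] := by
      have h4 : ty (g.1.1 []) = [] := by
        rw [G.ty_apply]; exact h1
      exact List.map_eq_nil_iff.1 h4
    rw [h3] at hi'
    exact ⟨i', hi'⟩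
  obtain ⟨x0, hx0, hx0'⟩ := exists_setM (Set.range fun i : ℕ => atomM [((0 : Lab), i)] : Set M)
    Set.finite_empty (good_closure (Set.finite_singleton [((0 : Lab), 0)])) (by
      rintro g hg _ ⟨i, rfl⟩
      obtain ⟨i', hi'⟩ := htl g hg i
      exact ⟨i', by simp only; rw [actM_atomM, hi']⟩)
  obtain ⟨s0, hs0, hs0'⟩ := modelsZFUR.pairing x0 x0
  obtain ⟨t, ht, htr, hst, href⟩ := hRP s0 hs0
  obtain ⟨Th, hTh⟩ := realize_rel_phiF
  have hx0t : Mem x0 t := hst x0 ((hs0' x0).2 (Or.inl rfl))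
  -- `t` is closed under `Theta`
  have hclosed : ∀ x : M, Mem x t → (∃ z : M, z ≠ x ∧ Theta x z) →
      ∃ z : M, Mem z t ∧ z ≠ x ∧ Theta x z := by
    intro x hx hex
    have h1 := href ![x, x] (by intro i; fin_cases i <;> exact hx)
    rw [realize_phiF, hTh] at h1
    obtain ⟨z0, hz0, hz0'⟩ := hex
    obtain ⟨z, hzt, -, hzx, hz⟩ := h1.1 ⟨z0, Or.inl rfl, hz0, hz0'⟩
    have h2 := href ![x, z] (by intro i; fin_cases i; exacts [hx, hzt])
    rw [realize_phiF, hTh] at h2
    obtain ⟨z', hz1, hz2, hz3⟩ := h2.2 ⟨z, hzt, Or.inr rfl, hzx, hz⟩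
    have h3 : z' = z := by
      rcases hz1 with h | h
      · exact absurd h.symm hzx
      · exact h
    subst h3
    exact ⟨z', hzt, hz2, hz3⟩
  -- the first big type
  have hbig0 : Big t [0] := by
    refine ⟨x0, hx0t, ?_, ?_⟩
    · intro a ha
      obtain ⟨i, rfl⟩ := (hx0' a).1 ha
      exact ⟨_, rfl⟩
    · have hinj : Function.Injective (fun i : ℕ => ([((0 : Lab), i)] : At)) := by
        intro i j hij
        simpa using hij
      refine (Set.infinite_range_of_injective hinj).mono ?_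
      rintro _ ⟨i, rfl⟩
      exact ⟨(hx0' _).2 ⟨i, rfl⟩, rfl⟩
  choose next hnext using fun s : {s // Big t s} => big_step hclosed s.2
  let f : ℕ → {s // Big t s} := fun n => Nat.rec ⟨[0], hbig0⟩ (fun _ s => ⟨next s, (hnext s).1⟩) n
  obtain ⟨F, S, h⟩ := t.2.sym
  refine h.good.wf ⟨fun n => (f n).1, fun n => ?_, fun n => ?_⟩
  · obtain ⟨x, hxt, -, hinf⟩ := (f n).2
    obtain ⟨b, hb, hb'⟩ := hinf.nonempty
    change (f n).1 ∈ S
    rw [← hb']
    exact h.ker (U.InKer.mem (U.InKer.mem U.InKer.atom hb) hxt)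
  · exact (hnext (f n)).2

end Pool.Agent.Lib.MP_b1de93_lc
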