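import Pool.Agent.Lib.MP_b1de93_lc.Collection

set_option autoImplicit false

namespace Pool.Agent.Lib.MP_b1de93_lc

open FirstOrder

section Formula

variable {n : ℕ}

/-- The free variables `x` and `y`. -/
def fv (i : Fin 2) : LU.Term (Fin 2 ⊕ Fin n) := FirstOrder.Language.Term.var (Sum.inl i)

/-- The bound variables. -/
def bv (i : Fin n) : LU.Term (Fin 2 ⊕ Fin n) := FirstOrder.Language.Term.var (Sum.inr i)

/-- Membership as a formula. -/
def memF (s t : LU.Term (Fin 2 ⊕ Fin n)) : LU.BoundedFormula (Fin 2) n :=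
  FirstOrder.Language.Relations.boundedFormula₂ (L := LU) RelSym.mem s t

/-- Being an urelement as a formula. -/
def urF (s : LU.Term (Fin 2 ⊕ Fin n)) : LU.BoundedFormula (Fin 2) n :=
  FirstOrder.Language.Relations.boundedFormula₁ (L := LU) RelSym.ur s

/-- `theta(x, z)`: `x` and `z` are disjoint collections of urelements and some `P` codes a map
from a part of `z` onto `x`. -/
def thetaF : LU.BoundedFormula (Fin 2) 1 :=
  (memF (bv 1) (fv 0) ⟹ urF (bv 1)).all ⊓ ((memF (bv 1) (bv 0) ⟹ urF (bv 1)).all ⊓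
  ((memF (bv 1) (bv 0) ⟹ (memF (bv 1) (fv 0)).not).all ⊓
  ((memF (bv 2) (fv 0) ⟹ (memF (bv 3) (bv 0) ⊓
      (memF (bv 4) (bv 1) ⊓ (memF (bv 3) (bv 4) ⊓ memF (bv 2) (bv 4))).ex).ex).all ⊓
   (memF (bv 2) (bv 0) ⟹ (memF (bv 3) (fv 0) ⟹ (memF (bv 4) (fv 0) ⟹
      (memF (bv 5) (bv 1) ⟹ (memF (bv 6) (bv 1) ⟹ (memF (bv 2) (bv 5) ⟹ (memF (bv 3) (bv 5) ⟹
      (memF (bv 2) (bv 6) ⟹ (memF (bv 4) (bv 6) ⟹
      (bv 3).bdEqual (bv 4)))))).all).all).all).all).all).ex))

/-- The formula witnessing the failure of reflection. -/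
def phiF : LU.Formula (Fin 2) :=
  ((((fv 0).bdEqual (fv 1)) ⊔ ((bv 0).bdEqual (fv 1))) ⊓
    ((((bv 0).bdEqual (fv 0)).not) ⊓ thetaF)).ex

end Formula

theorem realize_memF {n : ℕ} (s t : LU.Term (Fin 2 ⊕ Fin n)) (v : Fin 2 → M) (xs : Fin n → M) :
    (memF s t).Realize v xs ↔ Mem (s.realize (Sum.elim v xs)) (t.realize (Sum.elim v xs)) :=
  FirstOrder.Language.BoundedFormula.realize_rel₂

theorem realize_urF {n : ℕ} (s : LU.Term (Fin 2 ⊕ Fin n)) (v : Fin 2 → M) (xs : Fin n → M) :
    (urF s).Realize v xs ↔ Ur (s.realize (Sum.elim v xs)) :=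
  FirstOrder.Language.BoundedFormula.realize_rel₁

/-- The meaning of `thetaF`. -/
def Theta (x z : M) : Prop :=
  (∀ a : M, Mem a x → Ur a) ∧ (∀ a : M, Mem a z → Ur a) ∧ (∀ a : M, Mem a z → ¬ Mem a x) ∧
  ∃ P : M, (∀ b : M, Mem b x → ∃ a : M, Mem a z ∧ ∃ p : M, Mem p P ∧ Mem a p ∧ Mem b p) ∧
    (∀ a : M, Mem a z → ∀ b : M, Mem b x → ∀ b' : M, Mem b' x → ∀ p : M, Mem p P →
      ∀ p' : M, Mem p' P → Mem a p → Mem b p → Mem a p' → Mem b' p' → b = b')

theorem realize_thetaF (v : Fin 2 → M) (xs : Fin 1 → M) :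
    thetaF.Realize v xs ↔ Theta (v 0) (xs 0) := by
  unfold thetaF Theta
  simp only [FirstOrder.Language.BoundedFormula.realize_inf,
    FirstOrder.Language.BoundedFormula.realize_all, FirstOrder.Language.BoundedFormula.realize_ex,
    FirstOrder.Language.BoundedFormula.realize_imp, FirstOrder.Language.BoundedFormula.realize_not,
    FirstOrder.Language.BoundedFormula.realize_bdEqual, realize_memF, realize_urF]
  exact Iff.rfl

theorem realize_phiF (v : Fin 2 → M) :
    phiF.Realize v ↔ ∃ z : M, (v 0 = v 1 ∨ z = v 1) ∧ z ≠ v 0 ∧ Theta (v 0) z := by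
  unfold phiF FirstOrder.Language.Formula.Realize
  simp only [FirstOrder.Language.BoundedFormula.realize_inf,
    FirstOrder.Language.BoundedFormula.realize_sup,
    FirstOrder.Language.BoundedFormula.realize_ex, FirstOrder.Language.BoundedFormula.realize_not,
    FirstOrder.Language.BoundedFormula.realize_bdEqual, realize_thetaF]
  exact Iff.rfl

theorem relativize_inf {n : ℕ} (φ ψ : LU.BoundedFormula (Fin 2) n) :
    relativize (φ ⊓ ψ) = relativize φ ⊓ relativize ψ := rfl

theorem relativize_sup {n : ℕ} (φ ψ : LU.BoundedFormula (Fin 2) n) :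
    relativize (φ ⊔ ψ) = relativize φ ⊔ relativize ψ := rfl

theorem relativize_not {n : ℕ} (φ : LU.BoundedFormula (Fin 2) n) :
    relativize φ.not = (relativize φ).not := rfl

theorem relativize_imp {n : ℕ} (φ ψ : LU.BoundedFormula (Fin 2) n) :
    relativize (φ.imp ψ) = (relativize φ).imp (relativize ψ) := rfl

theorem realize_relativize_all {n : ℕ} (φ : LU.BoundedFormula (Fin 2) (n + 1))
    (w : Option (Fin 2) → M) (xs : Fin n → M) :
    (relativize φ.all).Realize w xs ↔
      ∀ a : M, Mem a (w none) → (relativize φ).Realize w (Fin.snoc xs a) := by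
  change (FirstOrder.Language.BoundedFormula.all (.imp
      (FirstOrder.Language.Relations.boundedFormula₂ (L := LU) RelSym.mem
        (FirstOrder.Language.Term.var (Sum.inr (Fin.last n)))
        (FirstOrder.Language.Term.var (Sum.inl none)))
      (relativize φ))).Realize w xs ↔ _
  simp only [FirstOrder.Language.BoundedFormula.realize_all,
    FirstOrder.Language.BoundedFormula.realize_imp]
  refine forall_congr' fun a => ?_
  refine imp_congr ?_ Iff.rfl
  refine Iff.trans (FirstOrder.Language.BoundedFormula.realize_rel₂) ?_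
  simp [Mem]

theorem realize_relativize_ex {n : ℕ} (φ : LU.BoundedFormula (Fin 2) (n + 1))
    (w : Option (Fin 2) → M) (xs : Fin n → M) :
    (relativize φ.ex).Realize w xs ↔
      ∃ a : M, Mem a (w none) ∧ (relativize φ).Realize w (Fin.snoc xs a) := by
  have h : relativize φ.ex = (relativize (φ.not.all)).not := rfl
  rw [h, FirstOrder.Language.BoundedFormula.realize_not, realize_relativize_all]
  simp only [relativize_not, FirstOrder.Language.BoundedFormula.realize_not]
  push Not
  rfl

/-- Values of terms after relativisation. -/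
def val {n : ℕ} (w : Option (Fin 2) → M) (xs : Fin n → M) (s : LU.Term (Fin 2 ⊕ Fin n)) : M :=
  s.realize (Sum.elim (fun i => w (some i)) xs)

theorem realize_relabel {n : ℕ} (w : Option (Fin 2) → M) (xs : Fin n → M)
    (s : LU.Term (Fin 2 ⊕ Fin n)) :
    (s.relabel (Sum.map some id)).realize (Sum.elim w xs) = val w xs s := by
  rw [FirstOrder.Language.Term.realize_relabel]
  unfold val
  congr 1
  funext i
  cases i <;> rfl

theorem realize_relativize_mem {n : ℕ} (s t : LU.Term (Fin 2 ⊕ Fin n))
    (w : Option (Fin 2) → M) (xs : Fin n → M) :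
    (relativize (memF s t)).Realize w xs ↔ Mem (val w xs s) (val w xs t) := by
  change FirstOrder.Language.Structure.RelMap (L := LU) RelSym.mem
    (fun i => ((![s, t] i).relabel (Sum.map some id)).realize (Sum.elim w xs)) ↔ _
  unfold Mem
  congr! 1
  funext i
  rw [realize_relabel]
  refine Fin.cases ?_ (fun j => ?_) i
  · rfl
  · refine Fin.cases ?_ (fun k => k.elim0) j
    rfl

theorem realize_relativize_ur {n : ℕ} (s : LU.Term (Fin 2 ⊕ Fin n))
    (w : Option (Fin 2) → M) (xs : Fin n → M) :
    (relativize (urF s)).Realize w xs ↔ Ur (val w xs s) := by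
  change FirstOrder.Language.Structure.RelMap (L := LU) RelSym.ur
    (fun i => ((![s] i).relabel (Sum.map some id)).realize (Sum.elim w xs)) ↔ _
  unfold Ur
  congr! 1
  funext i
  rw [realize_relabel]
  refine Fin.cases ?_ (fun j => j.elim0) i
  rfl

theorem realize_relativize_eq {n : ℕ} (s t : LU.Term (Fin 2 ⊕ Fin n))
    (w : Option (Fin 2) → M) (xs : Fin n → M) :
    (relativize (s.bdEqual t)).Realize w xs ↔ val w xs s = val w xs t := by
  unfold FirstOrder.Language.Term.bdEqual relativize
  rw [← FirstOrder.Language.Term.bdEqual, FirstOrder.Language.BoundedFormula.realize_bdEqual,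
    realize_relabel, realize_relabel]

theorem val_bv {n : ℕ} (w : Option (Fin 2) → M) (xs : Fin n → M) (i : Fin n) :
    val w xs (bv i) = xs i := rfl

theorem val_fv {n : ℕ} (w : Option (Fin 2) → M) (xs : Fin n → M) (i : Fin 2) :
    val w xs (fv i) = w (some i) := rfl

theorem realize_rel_thetaF (w w' : Option (Fin 2) → M) (xs : Fin 1 → M) (h1 : w none = w' none)
    (h2 : w (some 0) = w' (some 0)) :
    (relativize thetaF).Realize w xs ↔ (relativize thetaF).Realize w' xs := by
  unfold thetaF
  simp only [relativize_inf, relativize_imp, relativize_not,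
    FirstOrder.Language.BoundedFormula.realize_inf,
    FirstOrder.Language.BoundedFormula.realize_imp, FirstOrder.Language.BoundedFormula.realize_not,
    realize_relativize_all, realize_relativize_ex, realize_relativize_mem, realize_relativize_ur,
    realize_relativize_eq, val_bv, val_fv, h1, h2]

/-- The relativised formula, up to the value of the second free variable. -/
theorem realize_rel_phiF : ∃ Th : M → M → M → Prop, ∀ (t : M) (v : Fin 2 → M),
    (relativize phiF).Realize (Option.elim · t v) (default : Fin 0 → M) ↔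
      ∃ z : M, Mem z t ∧ (v 0 = v 1 ∨ z = v 1) ∧ z ≠ v 0 ∧ Th t (v 0) z := by
  refine ⟨fun t x z => (relativize thetaF).Realize (Option.elim · t ![x, x])
    (Fin.snoc (default : Fin 0 → M) z), ?_⟩
  intro t v
  unfold phiF
  rw [realize_relativize_ex]
  refine exists_congr fun z => ?_
  simp only [relativize_inf, relativize_not, relativize_sup,
    FirstOrder.Language.BoundedFormula.realize_inf,
    FirstOrder.Language.BoundedFormula.realize_sup, FirstOrder.Language.BoundedFormula.realize_not,
    realize_relativize_eq, val_bv, val_fv]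
  rw [realize_rel_thetaF (Option.elim · t v) (Option.elim · t ![v 0, v 0]) _ rfl rfl]
  exact Iff.rfl

end Pool.Agent.Lib.MP_b1de93_lc
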