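import Mathlib

set_option autoImplicit false

namespace Pool.Agent.Lib.MP_b1de93_lc

section TreeMap

variable {E : Type 1}

/-- The self-map of the tree of finite sequences given by local permutations `ρ`. -/
def treeMap : (List E → Equiv.Perm E) → List E → List E
  | _, [] => []
  | ρ, e :: u => ρ [] e :: treeMap (fun c => ρ (e :: c)) u

/-- The inverse of `treeMap ρ`. -/
def treeInv : (List E → Equiv.Perm E) → List E → List E
  | _, [] => []
  | ρ, e :: u => (ρ []).symm e :: treeInv (fun c => ρ ((ρ []).symm e :: c)) u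

theorem treeInv_treeMap (ρ : List E → Equiv.Perm E) (l : List E) :
    treeInv ρ (treeMap ρ l) = l := by
  induction l generalizing ρ with
  | nil => rfl
  | cons e u ih =>
    simp only [treeMap, treeInv, Equiv.symm_apply_apply]
    rw [ih]

theorem treeMap_treeInv (ρ : List E → Equiv.Perm E) (l : List E) :
    treeMap ρ (treeInv ρ l) = l := by
  induction l generalizing ρ with
  | nil => rfl
  | cons e u ih =>
    simp only [treeMap, treeInv, Equiv.apply_symm_apply]
    rw [ih]

/-- `treeMap` as a permutation. -/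
def treePerm (ρ : List E → Equiv.Perm E) : Equiv.Perm (List E) where
  toFun := treeMap ρ
  invFun := treeInv ρ
  left_inv := treeInv_treeMap ρ
  right_inv := treeMap_treeInv ρ

theorem treePerm_apply (ρ : List E → Equiv.Perm E) (l : List E) :
    treePerm ρ l = treeMap ρ l := rfl

theorem treeMap_append (ρ : List E → Equiv.Perm E) (l m : List E) :
    treeMap ρ (l ++ m) = treeMap ρ l ++ treeMap (fun c => ρ (l ++ c)) m := by
  induction l generalizing ρ with
  | nil => rfl
  | cons e u ih =>
    simp only [List.cons_append, treeMap]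
    rw [ih]

theorem treeInv_append (ρ : List E → Equiv.Perm E) (l m : List E) :
    ∃ m', treeInv ρ (l ++ m) = treeInv ρ l ++ m' := by
  induction l generalizing ρ with
  | nil => exact ⟨_, rfl⟩
  | cons e u ih =>
    obtain ⟨m', hm'⟩ := ih (fun c => ρ ((ρ []).symm e :: c))
    refine ⟨m', ?_⟩
    simp only [List.cons_append, treeInv]
    rw [hm']

theorem treePerm_prefix (ρ : List E → Equiv.Perm E) (l m : List E) :
    treePerm ρ l <+: treePerm ρ m ↔ l <+: m := by
  constructor
  · rintro ⟨t, ht⟩
    obtain ⟨m', hm'⟩ := treeInv_append ρ (treePerm ρ l) t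
    refine ⟨m', ?_⟩
    have h1 : treeInv ρ (treePerm ρ l) = l := treeInv_treeMap ρ l
    have h2 : treeInv ρ (treePerm ρ m) = m := treeInv_treeMap ρ m
    rw [← h1, ← hm', ht, h2]
  · rintro ⟨t, rfl⟩
    exact ⟨_, (treeMap_append ρ l t).symm⟩

theorem treeMap_length (ρ : List E → Equiv.Perm E) (l : List E) :
    (treeMap ρ l).length = l.length := by
  induction l generalizing ρ with
  | nil => rfl
  | cons e u ih => simp [treeMap, ih]

/-- If all the local permutations met along `l` fix the entries of `l`, then `l` is fixed. -/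
theorem treeMap_eq_self (ρ : List E → Equiv.Perm E) (l : List E)
    (h : ∀ c e, c ++ [e] <+: l → ρ c e = e) : treeMap ρ l = l := by
  induction l generalizing ρ with
  | nil => rfl
  | cons e u ih =>
    have h0 : ρ [] e = e := h [] e ⟨u, rfl⟩
    simp only [treeMap]
    rw [h0, ih]
    intro c e' hc
    apply h (e :: c) e'
    obtain ⟨t, rfl⟩ := hc
    exact ⟨t, by simp⟩

end TreeMap

/-- Labels: a proper class of them. -/
abbrev Lab : Type 1 := Ordinal.{0}

/-- Types (of urelements): finite sequences of labels. -/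
abbrev Ty : Type 1 := List Lab

/-- Urelements: finite sequences of pairs (label, natural number). -/
abbrev At : Type 1 := List (Lab × ℕ)

/-- The type of an urelement. -/
def ty (a : At) : Ty := a.map Prod.fst

theorem ty_append (a b : At) : ty (a ++ b) = ty a ++ ty b := List.map_append

theorem ty_length (a : At) : (ty a).length = a.length := List.length_map ..

theorem ty_prefix {a b : At} (h : a <+: b) : ty a <+: ty b := by
  obtain ⟨t, rfl⟩ := h
  exact ⟨ty t, (ty_append a t).symm⟩

/-- Lift of a type-preserving extension: if `s` is a prefix of `ty a`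
then `s` is the type of a prefix of `a`. -/
theorem exists_prefix_of_ty {s : Ty} {a : At} (h : s <+: ty a) : ∃ c, c <+: a ∧ ty c = s := by
  refine ⟨a.take s.length, List.take_prefix _ _, ?_⟩
  obtain ⟨t, ht⟩ := h
  unfold ty at *
  rw [List.map_take, ← ht]
  simp

theorem ty_surjective (s : Ty) : ty (s.map (fun l => (l, 0))) = s := by
  unfold ty
  simp [List.map_map, Function.comp_def]

/-- The group of automorphisms: pairs of compatible tree automorphisms of urelements and types. -/
def G : Subgroup (Equiv.Perm At × Equiv.Perm Ty) where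
  carrier := {g | (∀ a, ty (g.1 a) = g.2 (ty a)) ∧ (∀ a b, g.1 a <+: g.1 b ↔ a <+: b) ∧
    (∀ s t, g.2 s <+: g.2 t ↔ s <+: t)}
  mul_mem' := by
    rintro g h ⟨g1, g2, g3⟩ ⟨h1, h2, h3⟩
    refine ⟨fun a => ?_, fun a b => ?_, fun s t => ?_⟩
    · simp [g1, h1]
    · simp [g2, h2]
    · simp [g3, h3]
  one_mem' := by
    refine ⟨fun a => rfl, fun a b => Iff.rfl, fun s t => Iff.rfl⟩
  inv_mem' := by
    rintro g ⟨g1, g2, g3⟩
    refine ⟨fun a => ?_, fun a b => ?_, fun s t => ?_⟩
    · have := g1 (g.1⁻¹ a)
      have h1 : g.1 (g.1⁻¹ a) = a := g.1.apply_symm_apply a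
      rw [h1] at this
      change ty (g.1⁻¹ a) = g.2⁻¹ (ty a)
      rw [this]
      exact (g.2.symm_apply_apply _).symm
    · have := g2 (g.1⁻¹ a) (g.1⁻¹ b)
      simpa using this.symm
    · have := g3 (g.2⁻¹ s) (g.2⁻¹ t)
      simpa using this.symm

theorem G.ty_apply (g : G) (a : At) : ty (g.1.1 a) = g.1.2 (ty a) := g.2.1 a

theorem G.prefix_iff (g : G) (a b : At) : g.1.1 a <+: g.1.1 b ↔ a <+: b := g.2.2.1 a b

theorem G.ty_prefix_iff (g : G) (s t : Ty) : g.1.2 s <+: g.1.2 t ↔ s <+: t := g.2.2.2 s t

/-- A compatible pair of families of local permutations gives an element of `G`. -/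
def mkG (ρ : At → Equiv.Perm (Lab × ℕ)) (σ : Ty → Equiv.Perm Lab)
    (h : ∀ c e, (ρ c e).1 = σ (ty c) e.1) : G :=
  ⟨(treePerm ρ, treePerm σ), by
    refine ⟨fun a => ?_, treePerm_prefix ρ, treePerm_prefix σ⟩
    simp only [treePerm_apply]
    induction a generalizing ρ σ with
    | nil => rfl
    | cons e u ih =>
      have h0 := h [] e
      have h1 := ih (fun c => ρ (e :: c)) (fun c => σ (e.1 :: c)) (fun c e' => h (e :: c) e')
      have h2 : ty (e :: u) = e.1 :: ty u := rfl
      have h3 : ∀ (x : Lab × ℕ) (v : At), ty (x :: v) = x.1 :: ty v := fun _ _ => rfl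
      simp only [treeMap, h3]
      rw [h0, h1]
      rfl⟩

/-- Label automorphism: digits are kept. -/
def relabel (σ : Ty → Equiv.Perm Lab) : G :=
  mkG (fun c => Equiv.prodCongr (σ (ty c)) (Equiv.refl ℕ)) σ (fun _ _ => rfl)

/-- Digit automorphism: labels are kept. -/
def redigit (δ : At → Lab → Equiv.Perm ℕ) : G :=
  mkG (fun c => Equiv.prodShear (Equiv.refl Lab) (δ c)) (fun _ => Equiv.refl Lab) (fun _ _ => rfl)

theorem relabel_ty (σ : Ty → Equiv.Perm Lab) (s : Ty) : (relabel σ).1.2 s = treeMap σ s := rfl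

theorem redigit_ty (δ : At → Lab → Equiv.Perm ℕ) (s : Ty) : (redigit δ).1.2 s = s :=
  treeMap_eq_self _ _ (fun _ _ _ => rfl)

end Pool.Agent.Lib.MP_b1de93_lc
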