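import Pool.Agent.Lib.MP_b1de93_lc.Univ
import Pool.Agent.Lib.MP_b1de93_lc.Tree

set_option autoImplicit false

namespace Pool.Agent.Lib.MP_b1de93_lc

/-- Small, prefix-closed, well-founded trees of types. -/
structure Good (S : Set Ty) : Prop where
  small : Small.{0} S
  nil_mem : [] ∈ S
  closed : ∀ s t, s <+: t → t ∈ S → s ∈ S
  wf : ¬ ∃ f : ℕ → Ty, (∀ n, f n ∈ S) ∧ ∀ n, f n <+: f (n + 1) ∧ f n ≠ f (n + 1)

theorem chain_mono {f : ℕ → Ty} (h : ∀ n, f n <+: f (n + 1) ∧ f n ≠ f (n + 1)) {m n : ℕ}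
    (hmn : m ≤ n) : f m <+: f n := by
  induction n, hmn using Nat.le_induction with
  | base => exact List.prefix_refl _
  | succ n _ ih => exact ih.trans (h n).1

theorem chain_length {f : ℕ → Ty} (h : ∀ n, f n <+: f (n + 1) ∧ f n ≠ f (n + 1)) (n : ℕ) :
    (f n).length < (f (n + 1)).length := by
  rcases Nat.lt_or_ge (f n).length (f (n + 1)).length with h1 | h1
  · exact h1
  · exact absurd ((h n).1.eq_of_length_le h1) (h n).2

theorem chain_injective {f : ℕ → Ty} (h : ∀ n, f n <+: f (n + 1) ∧ f n ≠ f (n + 1)) :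
    Function.Injective f := by
  have : StrictMono (fun n => (f n).length) := strictMono_nat_of_lt_succ (chain_length h)
  intro m n hmn
  exact this.injective (by simp [hmn])

theorem Good.union {S T : Set Ty} (hS : Good S) (hT : Good T) : Good (S ∪ T) where
  small := by
    have := hS.small
    have := hT.small
    infer_instance
  nil_mem := Or.inl hS.nil_mem
  closed := by
    rintro s t hst (ht | ht)
    · exact Or.inl (hS.closed s t hst ht)
    · exact Or.inr (hT.closed s t hst ht)
  wf := by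
    rintro ⟨f, hf, hc⟩
    by_cases h : ∀ n, f n ∈ S
    · exact hS.wf ⟨f, h, hc⟩
    · push Not at h
      obtain ⟨m, hm⟩ := h
      refine hT.wf ⟨f, fun n => ?_, hc⟩
      rcases hf (max m n) with h1 | h1
      · exact absurd (hS.closed _ _ (chain_mono hc (le_max_left m n)) h1) hm
      · exact hT.closed _ _ (chain_mono hc (le_max_right m n)) h1

/-- The types of the prefixes of the members of `F`. -/
def closure (F : Set At) : Set Ty := {s | s = [] ∨ ∃ a ∈ F, s <+: ty a}

theorem closure_finite {F : Set At} (hF : F.Finite) : (closure F).Finite := by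
  have : closure F = {[]} ∪ ⋃ a ∈ F, {s | s <+: ty a} := by
    ext s; simp [closure]
  rw [this]
  refine (Set.finite_singleton _).union (hF.biUnion fun a _ => ?_)
  have : {s | s <+: ty a} = {s | s ∈ (ty a).inits} := by
    ext s; simp
  rw [this]
  exact List.finite_toSet _

theorem good_closure {F : Set At} (hF : F.Finite) : Good (closure F) where
  small := by
    have := (closure_finite hF).to_subtype
    infer_instance
  nil_mem := Or.inl rfl
  closed := by
    rintro s t hst (rfl | ⟨a, ha, ht⟩)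
    · exact Or.inl (List.prefix_nil.1 hst)
    · exact Or.inr ⟨a, ha, hst.trans ht⟩
  wf := by
    rintro ⟨f, hf, hc⟩
    exact Set.infinite_of_injective_forall_mem (chain_injective hc) hf (closure_finite hF)

theorem Good.image {S : Set Ty} (hS : Good S) (g : G) : Good (g.1.2 '' S) where
  small := by
    have := hS.small
    infer_instance
  nil_mem := by
    refine ⟨[], hS.nil_mem, ?_⟩
    have h : ([] : Ty) <+: g.1.2.symm [] := List.nil_prefix
    rw [← G.ty_prefix_iff g] at h
    simpa using h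
  closed := by
    rintro s _ hst ⟨t, ht, rfl⟩
    have h : g.1.2 (g.1.2.symm s) <+: g.1.2 t := by simpa using hst
    rw [G.ty_prefix_iff g] at h
    exact ⟨g.1.2.symm s, hS.closed _ _ h ht, by simp⟩
  wf := by
    rintro ⟨f, hf, hc⟩
    refine hS.wf ⟨fun n => g.1.2.symm (f n), fun n => ?_, fun n => ⟨?_, ?_⟩⟩
    · obtain ⟨t, ht, h⟩ := hf n
      simpa [← h] using ht
    · rw [← G.ty_prefix_iff g]
      simpa using (hc n).1
    · intro h
      exact (hc n).2 (g.1.2.symm.injective h)

/-- The automorphisms fixing the urelements in `F` and the types in `S`. -/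
def Fix (F : Set At) (S : Set Ty) : Subgroup G where
  carrier := {g | (∀ a ∈ F, g.1.1 a = a) ∧ ∀ s ∈ S, g.1.2 s = s}
  mul_mem' := by
    rintro g h ⟨g1, g2⟩ ⟨h1, h2⟩
    refine ⟨fun a ha => ?_, fun s hs => ?_⟩
    · change g.1.1 (h.1.1 a) = a
      rw [h1 a ha, g1 a ha]
    · change g.1.2 (h.1.2 s) = s
      rw [h2 s hs, g2 s hs]
  one_mem' := ⟨fun _ _ => rfl, fun _ _ => rfl⟩
  inv_mem' := by
    rintro g ⟨g1, g2⟩
    refine ⟨fun a ha => ?_, fun s hs => ?_⟩
    · change g.1.1.symm a = a
      rw [Equiv.symm_apply_eq]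
      exact (g1 a ha).symm
    · change g.1.2.symm s = s
      rw [Equiv.symm_apply_eq]
      exact (g2 s hs).symm

theorem mem_Fix {F : Set At} {S : Set Ty} {g : G} :
    g ∈ Fix F S ↔ (∀ a ∈ F, g.1.1 a = a) ∧ ∀ s ∈ S, g.1.2 s = s := Iff.rfl

theorem Fix_mono {F F' : Set At} {S S' : Set Ty} (hF : F ⊆ F') (hS : S ⊆ S') :
    Fix F' S' ≤ Fix F S := by
  rintro g ⟨g1, g2⟩
  exact ⟨fun a ha => g1 a (hF ha), fun s hs => g2 s (hS hs)⟩

/-- The action of the group on the universe. -/
def act (g : G) (x : U At) : U At := U.map g.1.1 x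

theorem act_one (x : U At) : act 1 x = x := U.map_id x

theorem act_mul (g h : G) (x : U At) : act (g * h) x = act g (act h x) :=
  (U.map_map g.1.1 h.1.1 x).symm

theorem act_inv_act (g : G) (x : U At) : act g⁻¹ (act g x) = x := by
  rw [← act_mul, inv_mul_cancel, act_one]

theorem act_act_inv (g : G) (x : U At) : act g (act g⁻¹ x) = x := by
  rw [← act_mul, mul_inv_cancel, act_one]

theorem act_injective (g : G) : Function.Injective (act g) := by
  intro x y h
  rw [← act_inv_act g x, h, act_inv_act]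

theorem act_atom (g : G) (a : At) : act g (U.atom a) = U.atom (g.1.1 a) := rfl

theorem mem_act {g : G} {z x : U At} : U.Mem z (act g x) ↔ ∃ y, U.Mem y x ∧ act g y = z :=
  U.mem_map

theorem act_mem_act {g : G} {z x : U At} : U.Mem (act g z) (act g x) ↔ U.Mem z x := by
  rw [mem_act]
  constructor
  · rintro ⟨y, hy, h⟩
    rwa [← act_injective g h]
  · intro h
    exact ⟨z, h, rfl⟩

theorem isAtom_act {g : G} {x : U At} : U.IsAtom (act g x) ↔ U.IsAtom x := U.isAtom_map

/-- `(F, S)` supports `x`. -/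
structure Supp (F : Set At) (S : Set Ty) (x : U At) : Prop where
  finite : F.Finite
  good : Good S
  sub : ∀ a ∈ F, ty a ∈ S
  fix : ∀ g ∈ Fix F S, act g x = x

/-- Symmetric elements. -/
def Sym (x : U At) : Prop := ∃ F S, Supp F S x

theorem Supp.mono {F F' : Set At} {S S' : Set Ty} {x : U At} (h : Supp F S x)
    (hF : F ⊆ F') (hS : S ⊆ S') (hf : F'.Finite) (hg : Good S') (hs : ∀ a ∈ F', ty a ∈ S') :
    Supp F' S' x :=
  ⟨hf, hg, hs, fun g hg' => h.fix g (Fix_mono hF hS hg')⟩

theorem Sym.of_fix {F : Set At} {S : Set Ty} {x : U At} (hF : F.Finite) (hS : Good S)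
    (h : ∀ g ∈ Fix F S, act g x = x) : Sym x := by
  refine ⟨F, S ∪ closure F, hF, hS.union (good_closure hF), ?_, ?_⟩
  · intro a ha
    exact Or.inr (Or.inr ⟨a, ha, List.prefix_refl _⟩)
  · intro g hg
    exact h g (Fix_mono le_rfl Set.subset_union_left hg)

theorem good_singleton : Good {([] : Ty)} := by
  have h := good_closure (F := ∅) Set.finite_empty
  have : closure ∅ = {([] : Ty)} := by
    ext s; simp [closure]
  rwa [this] at h

theorem sym_atom (a : At) : Sym (U.atom a) := by
  refine Sym.of_fix (F := {a}) (S := {[]}) (Set.finite_singleton a) good_singleton ?_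
  intro g hg
  rw [act_atom, hg.1 a rfl]

theorem Supp.act {F : Set At} {S : Set Ty} {x : U At} (h : Supp F S x) (g : G) :
    Supp (g.1.1 '' F) (g.1.2 '' S) (act g x) where
  finite := h.finite.image _
  good := h.good.image g
  sub := by
    rintro _ ⟨a, ha, rfl⟩
    rw [G.ty_apply]
    exact ⟨ty a, h.sub a ha, rfl⟩
  fix := by
    intro k hk
    have : g⁻¹ * k * g ∈ Fix F S := by
      refine ⟨fun a ha => ?_, fun s hs => ?_⟩
      · change g.1.1.symm (k.1.1 (g.1.1 a)) = a
        rw [hk.1 _ ⟨a, ha, rfl⟩]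
        simp
      · change g.1.2.symm (k.1.2 (g.1.2 s)) = s
        rw [hk.2 _ ⟨s, hs, rfl⟩]
        simp
    have h2 := h.fix _ this
    rw [act_mul, act_mul] at h2
    exact act_injective g⁻¹ (h2.trans (act_inv_act g x).symm)

/-- Hereditarily symmetric elements. -/
inductive HS : U At → Prop
  | atom (a : At) : HS (U.atom a)
  | set {x : U At} : Sym x → (∀ y, U.Mem y x → HS y) → HS x

theorem HS.sym {x : U At} (h : HS x) : Sym x := by
  cases h with
  | atom a => exact sym_atom a
  | set h _ => exact h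

theorem HS.mem {x y : U At} (h : HS x) (hy : U.Mem y x) : HS y := by
  cases h with
  | atom a => exact absurd hy U.not_mem_atom
  | set _ h => exact h y hy

theorem HS.act {x : U At} (h : HS x) (g : G) : HS (act g x) := by
  induction h with
  | atom a => exact HS.atom _
  | set h1 _ ih =>
    obtain ⟨F, S, h1⟩ := h1
    refine HS.set ⟨_, _, h1.act g⟩ ?_
    intro y hy
    obtain ⟨z, hz, rfl⟩ := mem_act.1 hy
    exact ih z hz

/-- The permutation model. -/
def M : Type 1 := {x : U At // HS x}

theorem exists_set (s : Set (U At)) [Small.{0} s] (hs : ∀ x ∈ s, HS x) {F : Set At} {S : Set Ty}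
    (hF : F.Finite) (hS : Good S) (h : ∀ g ∈ Fix F S, ∀ x ∈ s, act g x ∈ s) :
    ∃ y : M, ¬ U.IsAtom y.1 ∧ ∀ z : U At, U.Mem z y.1 ↔ z ∈ s := by
  have h0 : HS (U.ofSet s) := by
    refine HS.set (Sym.of_fix hF hS ?_) ?_
    · intro g hg
      apply U.ext_set
      · rw [isAtom_act]; exact U.not_isAtom_ofSet
      · exact U.not_isAtom_ofSet
      · intro z
        rw [mem_act, U.mem_ofSet]
        constructor
        · rintro ⟨y, hy, rfl⟩
          exact h g hg y (U.mem_ofSet.1 hy)
        · intro hz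
          exact ⟨MP_b1de93_lc.act g⁻¹ z, U.mem_ofSet.2 (h _ (inv_mem hg) z hz), act_act_inv g z⟩
    · intro y hy
      exact hs y (U.mem_ofSet.1 hy)
  exact ⟨⟨U.ofSet s, h0⟩, U.not_isAtom_ofSet, fun z => U.mem_ofSet⟩

/-- Label automorphisms not moving anything in `S`. -/
theorem relabel_fix {S : Set Ty} (hS : ∀ s t, s <+: t → t ∈ S → s ∈ S)
    {σ : Ty → Equiv.Perm Lab} (hσ : ∀ s γ, s ++ [γ] ∈ S → σ s γ = γ) :
    (∀ s ∈ S, (relabel σ).1.2 s = s) ∧ (∀ a, ty a ∈ S → (relabel σ).1.1 a = a) := by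
  constructor
  · intro s hs
    refine treeMap_eq_self _ _ fun c e hc => ?_
    exact hσ c e (hS _ _ hc hs)
  · intro a ha
    refine treeMap_eq_self _ _ fun c e hc => ?_
    have h1 : ty c ++ [e.1] ∈ S := by
      have := ty_prefix hc
      rw [ty_append] at this
      exact hS _ _ this ha
    have h2 := hσ _ _ h1
    exact Prod.ext h2 rfl

theorem exists_exit {S : Set Ty} (h0 : [] ∈ S) (s : Ty) (hs : s ∉ S) :
    ∃ s0 γ u, s = s0 ++ [γ] ++ u ∧ s0 ∈ S ∧ s0 ++ [γ] ∉ S := by
  induction s using List.reverseRecOn with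
  | nil => exact absurd h0 hs
  | append_singleton l γ ih =>
    by_cases hl : l ∈ S
    · exact ⟨l, γ, [], by simp, hl, hs⟩
    · obtain ⟨s0, γ', u, h1, h2, h3⟩ := ih hl
      exact ⟨s0, γ', u ++ [γ], by rw [h1]; simp, h2, h3⟩

theorem exit_unique {S : Set Ty} (hS : ∀ s t, s <+: t → t ∈ S → s ∈ S) {s s' : Ty} {γ γ' : Lab}
    {u u' : Ty} (h : s ++ [γ] ++ u <+: s' ++ [γ'] ++ u') (h1 : s ∈ S) (h2 : s' ∈ S)
    (h3 : s ++ [γ] ∉ S) (h4 : s' ++ [γ'] ∉ S) : s = s' ∧ γ = γ' := by
  have p1 : s ++ [γ] <+: s' ++ [γ'] ++ u' := (List.prefix_append _ _).trans h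
  have p2 : s' ++ [γ'] <+: s' ++ [γ'] ++ u' := List.prefix_append _ _
  have p3 : s' <+: s' ++ [γ'] ++ u' := (List.prefix_append _ _).trans p2
  have p4 : s <+: s' ++ [γ'] ++ u' := (List.prefix_append _ _).trans p1
  rcases Nat.lt_trichotomy s.length s'.length with hl | hl | hl
  · exfalso
    apply h3
    refine hS _ _ (List.prefix_of_prefix_length_le p1 p3 ?_) h2
    simp; omega
  · have : s ++ [γ] = s' ++ [γ'] := by
      apply (List.prefix_of_prefix_length_le p1 p2 _).eq_of_length
      · simp [hl]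
      · simp [hl]
    have h5 := List.append_inj this hl
    exact ⟨h5.1, by simpa using h5.2⟩
  · exfalso
    apply h4
    refine hS _ _ (List.prefix_of_prefix_length_le p2 p4 ?_) h1
    simp; omega

/-- The kernel of an element lies inside the types of any support. -/
theorem Supp.ker {F : Set At} {S : Set Ty} {x : U At} (h : Supp F S x) {a : At}
    (ha : U.InKer a x) : ty a ∈ S := by
  by_contra hS
  obtain ⟨s0, γ, u, hs, hs0, hγ⟩ := exists_exit h.good.nil_mem _ hS
  -- the automorphisms exchanging the labels `γ` and `β` at `s0`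
  let σ : Lab → Ty → Equiv.Perm Lab := fun β s => if s = s0 then Equiv.swap γ β else 1
  have key : ∀ β, s0 ++ [β] ∉ S → U.InKer ((relabel (σ β)).1.1 a) x ∧
      (ty ((relabel (σ β)).1.1 a)).getD s0.length 0 = β := by
    intro β hβ
    have hfix := relabel_fix (S := S) h.good.closed (σ := σ β) (by
      intro s γ' hs'
      by_cases h1 : s = s0
      · subst h1
        have n1 : γ' ≠ γ := by rintro rfl; exact hγ hs'
        have n2 : γ' ≠ β := by rintro rfl; exact hβ hs'
        simp only [σ, if_pos rfl]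
        exact Equiv.swap_apply_of_ne_of_ne n1 n2
      · simp [σ, h1])
    have hmem : relabel (σ β) ∈ Fix F S := ⟨fun b hb => hfix.2 b (h.sub b hb), hfix.1⟩
    constructor
    · have := U.inKer_map (g := (relabel (σ β)).1.1) ha
      have h2 := h.fix _ hmem
      unfold MP_b1de93_lc.act at h2
      rwa [h2] at this
    · rw [G.ty_apply, hs, relabel_ty, List.append_assoc, treeMap_append]
      have h3 : treeMap (σ β) s0 = s0 := hfix.1 s0 hs0
      rw [h3]
      simp [treeMap, σ]
  have := U.small_ker x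
  have := h.good.small
  have hsm : Small.{0} (Set.univ : Set Lab) := by
    have : (Set.univ : Set Lab) ⊆
        ((fun b => (ty b).getD s0.length 0) '' {b | U.InKer b x}) ∪
          ((fun t : Ty => t.getD s0.length 0) '' S) := by
      intro β _
      by_cases hβ : s0 ++ [β] ∈ S
      · right
        exact ⟨_, hβ, by simp⟩
      · left
        exact ⟨_, (key β hβ).1, (key β hβ).2⟩
    exact small_subset this
  rw [small_univ_iff] at hsm
  exact not_small_ordinal.{0, 0} hsm

/-- If `b` is nonempty and not an initial part of a member of the finite set `F` then `b` has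
infinitely many images under automorphisms fixing `F` and all types. -/
theorem infinite_orbit {F : Set At} (hF : F.Finite) {b : At} (hb : b ≠ [])
    (h : ∀ f ∈ F, ¬ b <+: f) :
    {b' | ∃ g : G, (∀ s, g.1.2 s = s) ∧ (∀ f ∈ F, g.1.1 f = f) ∧ g.1.1 b = b'}.Infinite := by
  obtain ⟨c, ⟨γ, i⟩, rfl⟩ : ∃ c e, b = c ++ [e] := by
    refine ⟨b.dropLast, b.getLast hb, ?_⟩
    exact (List.dropLast_append_getLast hb).symm
  have hbad : {j : ℕ | ∃ f ∈ F, c ++ [(γ, j)] <+: f}.Finite := by
    have : {j : ℕ | ∃ f ∈ F, c ++ [(γ, j)] <+: f} ⊆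
        (fun f : At => (f.getD c.length (0, 0)).2) '' F := by
      rintro j ⟨f, hf, ⟨t, rfl⟩⟩
      refine ⟨_, hf, ?_⟩
      simp [List.getD_eq_getElem?_getD]
    exact (hF.image _).subset this
  have hinf : ({j : ℕ | ∃ f ∈ F, c ++ [(γ, j)] <+: f}ᶜ).Infinite := hbad.infinite_compl
  have hinj : Function.Injective (fun j : ℕ => c ++ [(γ, j)]) := by
    intro j k hjk
    simpa using hjk
  refine (hinf.image hinj.injOn).mono ?_
  rintro _ ⟨j, hj, rfl⟩
  have hj' : ∀ f ∈ F, ¬ c ++ [(γ, j)] <+: f := by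
    intro f hf hc
    exact hj ⟨f, hf, hc⟩
  let δ : At → Lab → Equiv.Perm ℕ := fun c' γ' => if c' = c ∧ γ' = γ then Equiv.swap i j else 1
  refine ⟨redigit δ, redigit_ty δ, ?_, ?_⟩
  · intro f hf
    refine treeMap_eq_self _ _ ?_
    rintro c' ⟨γ', i'⟩ hc
    have : δ c' γ' i' = i' := by
      by_cases h1 : c' = c ∧ γ' = γ
      · obtain ⟨rfl, rfl⟩ := h1
        have n1 : i' ≠ i := by rintro rfl; exact h f hf hc
        have n2 : i' ≠ j := by rintro rfl; exact hj' f hf hc
        simp only [δ, and_self, if_true]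
        exact Equiv.swap_apply_of_ne_of_ne n1 n2
      · simp [δ, h1]
    change (γ', δ c' γ' i') = (γ', i')
    rw [this]
  · change treeMap _ (c ++ [(γ, i)]) = _
    rw [treeMap_append]
    rw [treeMap_eq_self]
    · change c ++ [(γ, δ (c ++ []) γ i)] = _
      simp [δ]
    · rintro c' ⟨γ', i'⟩ hc
      have : c' ≠ c := by
        rintro rfl
        have := hc.length_le
        simp at this
      change (γ', δ c' γ' i') = (γ', i')
      simp [δ, this]

end Pool.Agent.Lib.MP_b1de93_lc
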