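import Mathlib

set_option autoImplicit false

namespace Pool.Agent.Lib.MP_b1de93_lc

/-- Pre-sets over a (possibly large) type of atoms: an atom, or a small family of pre-sets. -/
inductive PreU (A : Type 1) : Type 1
  | atom : A → PreU A
  | mk : (α : Type) → (α → PreU A) → PreU A

namespace PreU

variable {A : Type 1}

/-- Extensional equality of pre-sets. -/
def Eqv : PreU A → PreU A → Prop
  | .atom a, .atom b => a = b
  | .mk _ f, .mk _ g => (∀ i, ∃ j, Eqv (f i) (g j)) ∧ (∀ j, ∃ i, Eqv (f i) (g j))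
  | .atom _, .mk _ _ => False
  | .mk _ _, .atom _ => False

theorem Eqv.refl : ∀ x : PreU A, Eqv x x
  | .atom _ => rfl
  | .mk _ f => ⟨fun i => ⟨i, Eqv.refl (f i)⟩, fun i => ⟨i, Eqv.refl (f i)⟩⟩

theorem Eqv.symm : ∀ {x y : PreU A}, Eqv x y → Eqv y x
  | .atom _, .atom _, h => Eq.symm h
  | .mk _ _, .mk _ _, h =>
    ⟨fun j => let ⟨i, hi⟩ := h.2 j; ⟨i, Eqv.symm hi⟩,
      fun i => let ⟨j, hj⟩ := h.1 i; ⟨j, Eqv.symm hj⟩⟩

theorem Eqv.trans : ∀ {x y z : PreU A}, Eqv x y → Eqv y z → Eqv x z
  | .atom _, .atom _, .atom _, h, k => Eq.trans h k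
  | .mk _ _, .mk _ _, .mk _ _, h, k =>
    ⟨fun i => let ⟨j, hj⟩ := h.1 i; let ⟨l, hl⟩ := k.1 j; ⟨l, Eqv.trans hj hl⟩,
      fun l => let ⟨j, hj⟩ := k.2 l; let ⟨i, hi⟩ := h.2 j; ⟨i, Eqv.trans hi hj⟩⟩

instance setoid (A : Type 1) : Setoid (PreU A) :=
  ⟨Eqv, Eqv.refl, Eqv.symm, Eqv.trans⟩

/-- The action of a permutation of the atoms on pre-sets. -/
def map (g : A → A) : PreU A → PreU A
  | .atom a => .atom (g a)
  | .mk α f => .mk α (fun i => map g (f i))

theorem map_eqv (g : A → A) : ∀ {x y : PreU A}, Eqv x y → Eqv (map g x) (map g y)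
  | .atom _, .atom _, h => congrArg g h
  | .mk _ _, .mk _ _, h =>
    ⟨fun i => let ⟨j, hj⟩ := h.1 i; ⟨j, map_eqv g hj⟩,
      fun j => let ⟨i, hi⟩ := h.2 j; ⟨i, map_eqv g hi⟩⟩

end PreU

/-- The universe of sets over the class `A` of urelements. -/
def U (A : Type 1) : Type 1 := Quotient (PreU.setoid A)

namespace U

variable {A : Type 1}

/-- An urelement. -/
def atom (a : A) : U A := Quotient.mk _ (PreU.atom a)

/-- The set whose elements are the members of a small family. -/
noncomputable def mk (α : Type) (f : α → U A) : U A :=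
  Quotient.mk _ (PreU.mk α (fun i => (f i).out))

theorem ind {P : U A → Prop} (ha : ∀ a, P (atom a))
    (hm : ∀ (α : Type) (f : α → U A), (∀ i, P (f i)) → P (mk α f)) : ∀ x, P x := by
  intro x
  induction x using Quotient.inductionOn with
  | h x =>
    induction x with
    | atom a => exact ha a
    | mk α f ih =>
      have : (Quotient.mk (PreU.setoid A) (PreU.mk α f)) = mk α (fun i => Quotient.mk _ (f i)) := by
        apply Quotient.sound
        refine ⟨fun i => ⟨i, ?_⟩, fun i => ⟨i, ?_⟩⟩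
        · exact PreU.Eqv.symm (Quotient.mk_out (s := PreU.setoid A) (f i))
        · exact PreU.Eqv.symm (Quotient.mk_out (s := PreU.setoid A) (f i))
      rw [this]
      exact hm _ _ ih

theorem mk_eq_mk {α β : Type} {f : α → U A} {g : β → U A} :
    mk α f = mk β g ↔ Set.range f = Set.range g := by
  constructor
  · intro h
    have h' : PreU.Eqv (PreU.mk α (fun i => (f i).out)) (PreU.mk β (fun i => (g i).out)) :=
      Quotient.exact h
    ext x
    constructor
    · rintro ⟨i, rfl⟩
      obtain ⟨j, hj⟩ := h'.1 i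
      refine ⟨j, ?_⟩
      have := Quotient.sound (s := PreU.setoid A) hj
      exact ((Quotient.out_eq (f i)).symm.trans (this.trans (Quotient.out_eq (g j)))).symm
    · rintro ⟨j, rfl⟩
      obtain ⟨i, hi⟩ := h'.2 j
      refine ⟨i, ?_⟩
      have := Quotient.sound (s := PreU.setoid A) hi
      exact (Quotient.out_eq (f i)).symm.trans (this.trans (Quotient.out_eq (g j)))
  · intro h
    apply Quotient.sound
    refine ⟨fun i => ?_, fun j => ?_⟩
    · obtain ⟨j, hj⟩ : f i ∈ Set.range g := h ▸ ⟨i, rfl⟩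
      refine ⟨j, ?_⟩
      change PreU.Eqv (f i).out (g j).out
      rw [hj]
      exact PreU.Eqv.refl _
    · obtain ⟨i, hi⟩ : g j ∈ Set.range f := h ▸ ⟨j, rfl⟩
      refine ⟨i, ?_⟩
      change PreU.Eqv (f i).out (g j).out
      rw [hi]
      exact PreU.Eqv.refl _

theorem atom_inj {a b : A} : atom a = atom b ↔ a = b :=
  ⟨fun h => Quotient.exact (s := PreU.setoid A) h, fun h => h ▸ rfl⟩

theorem atom_ne_mk {a : A} {α : Type} {f : α → U A} : atom a ≠ mk α f := by
  intro h
  exact Quotient.exact (s := PreU.setoid A) h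

theorem cases (x : U A) : (∃ a, x = atom a) ∨ ∃ α f, x = mk α f := by
  refine ind (P := fun x => (∃ a, x = atom a) ∨ ∃ α f, x = mk α f) ?_ ?_ x
  · exact fun a => Or.inl ⟨a, rfl⟩
  · exact fun α f _ => Or.inr ⟨α, f, rfl⟩

/-- Membership. -/
def Mem (x y : U A) : Prop := ∃ (α : Type) (f : α → U A), y = mk α f ∧ x ∈ Set.range f

theorem mem_mk {x : U A} {α : Type} {f : α → U A} : Mem x (mk α f) ↔ x ∈ Set.range f := by
  constructor
  · rintro ⟨β, g, h, hx⟩
    rw [mk_eq_mk] at h
    rwa [h]
  · intro h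
    exact ⟨α, f, rfl, h⟩

theorem not_mem_atom {x : U A} {a : A} : ¬ Mem x (atom a) := by
  rintro ⟨β, g, h, hx⟩
  exact atom_ne_mk h

/-- The set of elements of a small class. -/
noncomputable def ofSet (s : Set (U A)) [Small.{0} s] : U A :=
  mk (Shrink.{0} s) (fun i => ((equivShrink s).symm i).1)

theorem mem_ofSet {x : U A} {s : Set (U A)} [Small.{0} s] : Mem x (ofSet s) ↔ x ∈ s := by
  unfold ofSet
  rw [mem_mk]
  constructor
  · rintro ⟨i, rfl⟩
    exact ((equivShrink s).symm i).2
  · intro h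
    exact ⟨equivShrink s ⟨x, h⟩, by simp⟩

theorem ofSet_ne_atom {s : Set (U A)} [Small.{0} s] {a : A} : ofSet s ≠ atom a :=
  fun h => atom_ne_mk h.symm

/-- Being an urelement. -/
def IsAtom (x : U A) : Prop := ∃ a, x = atom a

theorem not_isAtom_mk {α : Type} {f : α → U A} : ¬ IsAtom (mk α f) := by
  rintro ⟨a, h⟩
  exact atom_ne_mk h.symm

theorem not_isAtom_ofSet {s : Set (U A)} [Small.{0} s] : ¬ IsAtom (ofSet s) := not_isAtom_mk

theorem exists_mk_of_not_isAtom {x : U A} (h : ¬ IsAtom x) : ∃ α f, x = mk α f := by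
  rcases cases x with h' | h'
  · exact absurd h' h
  · exact h'

theorem ext_set {x y : U A} (hx : ¬ IsAtom x) (hy : ¬ IsAtom y) (h : ∀ z, Mem z x ↔ Mem z y) :
    x = y := by
  obtain ⟨α, f, rfl⟩ := exists_mk_of_not_isAtom hx
  obtain ⟨β, g, rfl⟩ := exists_mk_of_not_isAtom hy
  rw [mk_eq_mk]
  ext z
  rw [← mem_mk, ← mem_mk]
  exact h z

instance small_mem (x : U A) : Small.{0} {z | Mem z x} := by
  rcases cases x with ⟨a, rfl⟩ | ⟨α, f, rfl⟩
  · have : {z | Mem z (atom a)} = (∅ : Set (U A)) := by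
      ext z; simp [not_mem_atom]
    rw [this]
    infer_instance
  · have : {z | Mem z (mk α f)} = Set.range f := by
      ext z; simp [mem_mk]
    rw [this]
    infer_instance

theorem mem_induction {P : U A → Prop} (h : ∀ x, (∀ y, Mem y x → P y) → P x) : ∀ x, P x := by
  refine ind ?_ ?_
  · intro a
    exact h _ fun y hy => absurd hy not_mem_atom
  · intro α f ih
    refine h _ fun y hy => ?_
    obtain ⟨i, rfl⟩ := mem_mk.1 hy
    exact ih i

/-- The action of a map of atoms on the universe. -/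
def map (g : A → A) : U A → U A :=
  Quotient.map (PreU.map g) (fun _ _ h => PreU.map_eqv g h)

theorem map_atom (g : A → A) (a : A) : map g (atom a) = atom (g a) := rfl

theorem map_mk (g : A → A) (α : Type) (f : α → U A) :
    map g (mk α f) = mk α (fun i => map g (f i)) := by
  apply Quotient.sound
  refine ⟨fun i => ⟨i, ?_⟩, fun i => ⟨i, ?_⟩⟩
  · have : (Quotient.mk (PreU.setoid A) (PreU.map g (f i).out)) = map g (f i) := by
      conv_rhs => rw [← Quotient.out_eq (f i)]
      rfl
    exact Quotient.exact (s := PreU.setoid A) (by rw [this]; exact (Quotient.out_eq _).symm)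
  · have : (Quotient.mk (PreU.setoid A) (PreU.map g (f i).out)) = map g (f i) := by
      conv_rhs => rw [← Quotient.out_eq (f i)]
      rfl
    exact Quotient.exact (s := PreU.setoid A) (by rw [this]; exact (Quotient.out_eq _).symm)

theorem map_id (x : U A) : map id x = x := by
  refine ind (P := fun x => map id x = x) ?_ ?_ x
  · intro a; rfl
  · intro α f ih
    rw [map_mk, mk_eq_mk]
    congr 1
    funext i
    exact ih i

theorem map_map (g h : A → A) (x : U A) : map g (map h x) = map (g ∘ h) x := by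
  refine ind (P := fun x => map g (map h x) = map (g ∘ h) x) ?_ ?_ x
  · intro a; rfl
  · intro α f ih
    rw [map_mk, map_mk, map_mk, mk_eq_mk]
    congr 1
    funext i
    exact ih i

theorem mem_map {g : A → A} {z x : U A} : Mem z (map g x) ↔ ∃ y, Mem y x ∧ map g y = z := by
  rcases cases x with ⟨a, rfl⟩ | ⟨α, f, rfl⟩
  · rw [map_atom]
    simp [not_mem_atom]
  · rw [map_mk, mem_mk]
    constructor
    · rintro ⟨i, rfl⟩
      exact ⟨f i, mem_mk.2 ⟨i, rfl⟩, rfl⟩
    · rintro ⟨y, hy, rfl⟩
      obtain ⟨i, rfl⟩ := mem_mk.1 hy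
      exact ⟨i, rfl⟩

/-- `InKer a x`: the atom `a` occurs in the transitive closure of `{x}`. -/
inductive InKer (a : A) : U A → Prop
  | atom : InKer a (atom a)
  | mem {x y : U A} : InKer a y → Mem y x → InKer a x

theorem inKer_atom {a b : A} : InKer a (atom b) ↔ a = b := by
  constructor
  · intro h
    generalize hx : (atom b : U A) = x at h
    cases h with
    | atom => exact (atom_inj.1 hx).symm
    | mem h1 h2 =>
      subst hx
      exact absurd h2 not_mem_atom
  · rintro rfl
    exact InKer.atom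

theorem inKer_mk {a : A} {α : Type} {f : α → U A} :
    InKer a (mk α f) ↔ ∃ i, InKer a (f i) := by
  constructor
  · intro h
    generalize hx : mk α f = x at h
    cases h with
    | atom => exact absurd hx.symm atom_ne_mk
    | mem h1 h2 =>
      subst hx
      obtain ⟨i, rfl⟩ := mem_mk.1 h2
      exact ⟨i, h1⟩
  · rintro ⟨i, hi⟩
    exact InKer.mem hi (mem_mk.2 ⟨i, rfl⟩)

theorem small_ker (x : U A) : Small.{0} {a | InKer a x} := by
  refine ind (P := fun x => Small.{0} {a | InKer a x}) ?_ ?_ x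
  · intro b
    have : {a | InKer a (atom b : U A)} = {b} := by
      ext a; simp [inKer_atom]
    rw [this]
    exact small_single b
  · intro α f ih
    have : {a | InKer a (mk α f)} = ⋃ i, {a | InKer a (f i)} := by
      ext a; simp [inKer_mk]
    rw [this]
    infer_instance

theorem inKer_map {g : A → A} {a : A} {x : U A} (h : InKer a x) : InKer (g a) (map g x) := by
  induction h with
  | atom => exact InKer.atom
  | mem _ h2 ih => exact InKer.mem ih (mem_map.2 ⟨_, h2, rfl⟩)

theorem map_eq_self_of_ker {g : A → A} {x : U A} (h : ∀ a, InKer a x → g a = a) :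
    map g x = x := by
  revert h
  refine ind (P := fun x => (∀ a, InKer a x → g a = a) → map g x = x) ?_ ?_ x
  · intro a h
    rw [map_atom, h a InKer.atom]
  · intro α f ih h
    rw [map_mk, mk_eq_mk]
    congr 1
    funext i
    exact ih i fun a ha => h a (inKer_mk.2 ⟨i, ha⟩)

theorem isAtom_map {g : A → A} {x : U A} : IsAtom (map g x) ↔ IsAtom x := by
  rcases cases x with ⟨a, rfl⟩ | ⟨α, f, rfl⟩
  · exact ⟨fun _ => ⟨a, rfl⟩, fun _ => ⟨g a, rfl⟩⟩
  · rw [map_mk]
    exact ⟨fun h => absurd h not_isAtom_mk, fun h => absurd h not_isAtom_mk⟩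

end U

end Pool.Agent.Lib.MP_b1de93_lc
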